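import Pool.Agent.Lib.ALL_h68.Exit

/-!
# PROJECT ALL: frames of a function field give log uniformization of real coarsenings (helper68)

`FRK`: a frame of the field `K` itself. `lurAt_of_frame`.
-/

set_option autoImplicit false

namespace Pool.Agent.ALL68

open Pool.Agent.LU2 Pool.Agent.TAO Pool.Agent.LU2G
open Pool.Agent.H15JM (RVal)
open Module

universe u w

/-- A frame with `r` monomial parameters and `D` free parameters of the valued field `K`. -/
structure FRK (k : Type u) {K : Type u} [Field k] [Field K] [Algebra k K] {𝕂 : Type w} [Field 𝕂]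
    [LinearOrder 𝕂] [IsStrictOrderedRing 𝕂] (v : OVal 𝕂 K) (r D : ℕ) where
  /-- the group of exponents -/
  Γ : AddSubgroup 𝕂
  fg : Γ.FG
  rank : ∃ X : Fin r → 𝕂, LinearIndependent ℚ X ∧ (∀ i, X i ∈ Γ) ∧
    ∀ γ ∈ Γ, γ ∈ Submodule.span ℚ (Set.range X)
  /-- the monomials -/
  χ : 𝕂 → K
  χ_ne : ∀ γ ∈ Γ, χ γ ≠ 0
  χ_add : ∀ γ ∈ Γ, ∀ δ ∈ Γ, χ (γ + δ) = χ γ * χ δ
  χ_val : ∀ γ ∈ Γ, v (χ γ) = γ
  /-- the free parameters -/
  y : Fin D → K
  y_ne : ∀ i, y i ≠ 0
  y_pos : ∀ i, 0 < v (y i)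
  /-- the ring -/
  R : Subalgebra k K
  nonneg : ∀ f ∈ R, v.Ge 0 f
  loc : ∀ f ∈ R, f ≠ 0 → v f = 0 → f⁻¹ ∈ R
  χ_mem : ∀ γ ∈ Γ, 0 ≤ γ → χ γ ∈ R
  y_mem : ∀ i, y i ∈ R
  fgen : ∃ F : Finset K, (∀ f ∈ F, f ∈ R) ∧ ∀ f ∈ R,
    ∃ a ∈ Algebra.adjoin k ((F : Set K) ∪ χ '' {γ | γ ∈ Γ ∧ 0 ≤ γ}),
    ∃ b ∈ Algebra.adjoin k ((F : Set K) ∪ χ '' {γ | γ ∈ Γ ∧ 0 ≤ γ}), b ≠ 0 ∧ v b = 0 ∧ f = a / b
  gen : ∀ f ∈ R, VPos v f → ∃ γ ∈ Γ, 0 < γ ∧ ∃ a ∈ R, ∃ b : Fin D → K, (∀ i, b i ∈ R) ∧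
    f = χ γ * a + ∑ i, y i * b i

section

variable {k K : Type u} [Field k] [Field K] [Algebra k K] {𝕂 : Type w} [Field 𝕂] [LinearOrder 𝕂]
  [IsStrictOrderedRing 𝕂] {v : OVal 𝕂 K} {r D : ℕ}

/-- `f` is a monomial times a unit. -/
def FRK.Mono (C : FRK k v r D) (f : K) : Prop := f ≠ 0 ∧ v f ∈ C.Γ ∧ f / C.χ (v f) ∈ C.R

theorem FRK.χ_zero (C : FRK k v r D) : C.χ 0 = 1 := by
  have h1 := C.χ_add 0 C.Γ.zero_mem 0 C.Γ.zero_mem
  rw [add_zero] at h1
  have h2 := C.χ_ne 0 C.Γ.zero_mem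
  exact (mul_right_eq_self₀.1 h1.symm).resolve_right h2

theorem FRK.χ_neg (C : FRK k v r D) {γ : 𝕂} (hγ : γ ∈ C.Γ) : C.χ (-γ) = (C.χ γ)⁻¹ := by
  have h1 := C.χ_add γ hγ (-γ) (C.Γ.neg_mem hγ)
  rw [add_neg_cancel, C.χ_zero] at h1
  exact eq_inv_of_mul_eq_one_right h1.symm

theorem FRK.χ_nsmul (C : FRK k v r D) {γ : 𝕂} (hγ : γ ∈ C.Γ) (n : ℕ) :
    C.χ (n • γ) = C.χ γ ^ n := by
  induction n with
  | zero => rw [zero_smul, C.χ_zero, pow_zero]
  | succ n ih => rw [succ_nsmul, C.χ_add _ (C.Γ.nsmul_mem hγ n) _ hγ, ih, pow_succ]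

theorem FRK.χ_zsmul (C : FRK k v r D) {γ : 𝕂} (hγ : γ ∈ C.Γ) (n : ℤ) :
    C.χ (n • γ) = C.χ γ ^ n := by
  rcases Int.eq_nat_or_neg n with ⟨m, rfl | rfl⟩
  · rw [natCast_zsmul, C.χ_nsmul hγ, zpow_natCast]
  · rw [neg_zsmul, natCast_zsmul, C.χ_neg (C.Γ.nsmul_mem hγ m), C.χ_nsmul hγ, zpow_neg,
      zpow_natCast]

theorem FRK.χ_sum (C : FRK k v r D) {ι : Type*} (s : Finset ι) {lam : ι → 𝕂}
    (hlam : ∀ i ∈ s, lam i ∈ C.Γ) (l : ι → ℤ) :
    (∑ i ∈ s, l i • lam i) ∈ C.Γ ∧ C.χ (∑ i ∈ s, l i • lam i) = ∏ i ∈ s, C.χ (lam i) ^ l i := by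
  classical
  induction s using Finset.induction_on with
  | empty => exact ⟨by simpa using C.Γ.zero_mem, by simpa using C.χ_zero⟩
  | insert i s hi ih =>
    obtain ⟨h1, h2⟩ := ih fun j hj => hlam j (Finset.mem_insert_of_mem hj)
    have h3 := C.Γ.zsmul_mem (hlam i (Finset.mem_insert_self _ _)) (l i)
    rw [Finset.sum_insert hi, Finset.prod_insert hi]
    exact ⟨C.Γ.add_mem h3 h1, by
      rw [C.χ_add _ h3 _ h1, h2, C.χ_zsmul (hlam i (Finset.mem_insert_self _ _))]⟩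

/-- Perron bases of the group of exponents. -/
theorem FRK.exists_basis (C : FRK k v r D) (N : Finset 𝕂) (hN : ∀ γ ∈ N, γ ∈ C.Γ ∧ 0 ≤ γ) :
    ∃ lam : Fin r → 𝕂, (∀ i, lam i ∈ C.Γ) ∧ (∀ i, 0 < lam i) ∧ LinearIndependent ℚ lam ∧
      (∀ γ ∈ C.Γ, ∃ l : Fin r → ℤ, γ = ∑ i, l i • lam i) ∧
      ∀ γ ∈ N, ∃ l : Fin r → ℤ, (∀ i, 0 ≤ l i) ∧ γ = ∑ i, l i • lam i := by
  classical
  obtain ⟨X, hX, hXΓ, hspan⟩ := C.rank
  have hfin : Module.Finite ℤ C.Γ := Module.Finite.iff_addGroup_fg.mpr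
    ((AddGroup.fg_iff_addSubgroup_fg C.Γ).mpr C.fg)
  have hfree : Module.Free ℤ C.Γ := Module.free_of_finite_type_torsion_free'
  set b := Module.finBasis ℤ C.Γ with hb
  set f : Fin (Module.finrank ℤ C.Γ) → 𝕂 := fun i => (b i : 𝕂) with hf
  have hfZ : LinearIndependent ℤ f := by
    have h1 := b.linearIndependent.map' (AddSubgroup.subtype C.Γ).toIntLinearMap (by
      rw [LinearMap.ker_eq_bot]
      exact Subtype.val_injective)
    exact h1
  have hfQ : LinearIndependent ℚ f := (LinearIndependent.iff_fractionRing ℤ ℚ).mp hfZ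
  have hXZ : LinearIndependent ℤ (fun i => (⟨X i, hXΓ i⟩ : C.Γ)) := by
    refine LinearIndependent.of_comp (AddSubgroup.subtype C.Γ).toIntLinearMap ?_
    exact (LinearIndependent.iff_fractionRing ℤ ℚ).mpr hX
  have hle : r ≤ Module.finrank ℤ C.Γ := by
    have := hXZ.fintype_card_le_finrank
    simpa using this
  have hge : Module.finrank ℤ C.Γ ≤ r := by
    have h1 : Set.range f ⊆ Submodule.span ℚ (Set.range X) := by
      rintro _ ⟨i, rfl⟩
      exact hspan _ (b i).2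
    have h2 : Submodule.span ℚ (Set.range f) ≤ Submodule.span ℚ (Set.range X) :=
      Submodule.span_le.mpr h1
    have : FiniteDimensional ℚ (Submodule.span ℚ (Set.range X)) :=
      FiniteDimensional.span_of_finite ℚ (Set.finite_range X)
    have h3 := Submodule.finrank_mono h2
    rw [finrank_span_eq_card hfQ, finrank_span_eq_card hX] at h3
    simpa using h3
  have hr' : Module.finrank ℤ C.Γ = r := le_antisymm hge hle
  let c : Fin r ≃ Fin (Module.finrank ℤ C.Γ) := finCongr hr'.symm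
  let φ : (Fin r → ℤ) ≃ₗ[ℤ] C.Γ := (b.reindex c.symm).equivFun.symm
  let S : Finset C.Γ := (N.attach.image fun γ : {γ // γ ∈ N} =>
    (⟨γ.1, (hN γ.1 γ.2).1⟩ : C.Γ)).filter fun γ => 0 < γ
  obtain ⟨φ', hp, hn⟩ := LUA.perron φ S (fun g hg => (Finset.mem_filter.1 hg).2)
  have hexp : ∀ g : C.Γ, (g : 𝕂) = ∑ j, (φ'.symm g) j • ((φ' (Pi.single j 1) : C.Γ) : 𝕂) := by
    intro g
    have h1 : φ'.symm g = ∑ j, (φ'.symm g) j • (Pi.single j 1 : Fin r → ℤ) := by
      ext i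
      simp [Finset.sum_apply, Pi.single_apply]
    have h2 : g = ∑ j, (φ'.symm g) j • φ' (Pi.single j 1) := by
      conv_lhs => rw [← φ'.apply_symm_apply g, h1]
      rw [map_sum]
      exact Finset.sum_congr rfl fun j _ => by rw [map_smul]
    conv_lhs => rw [h2]
    rw [AddSubmonoidClass.coe_finset_sum]
    exact Finset.sum_congr rfl fun j _ => rfl
  refine ⟨fun j => ((φ' (Pi.single j 1) : C.Γ) : 𝕂), fun j => (φ' (Pi.single j 1)).2,
    fun j => hp j, ?_, fun γ hγ => ⟨φ'.symm ⟨γ, hγ⟩, hexp ⟨γ, hγ⟩⟩, fun γ hγ => ?_⟩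
  · refine (LinearIndependent.iff_fractionRing ℤ ℚ).mp ?_
    rw [Fintype.linearIndependent_iff]
    intro l hl
    have h1 : φ' l = 0 := by
      apply Subtype.ext
      have h2 := hexp (φ' l)
      rw [LinearEquiv.symm_apply_apply] at h2
      rw [h2]
      exact hl
    have h4 : l = 0 := by
      have := congrArg φ'.symm h1
      rwa [LinearEquiv.symm_apply_apply, map_zero] at this
    exact fun j => congrFun h4 j
  · obtain ⟨hγ1, hγ2⟩ := hN γ hγ
    refine ⟨φ'.symm ⟨γ, hγ1⟩, fun i => ?_, hexp ⟨γ, hγ1⟩⟩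
    rcases hγ2.eq_or_lt with h | h
    · have h1 : (⟨γ, hγ1⟩ : C.Γ) = 0 := Subtype.ext h.symm
      rw [h1, map_zero]
      exact le_refl (0 : ℤ)
    · refine hn _ (Finset.mem_filter.2 ⟨Finset.mem_image.2
        ⟨⟨γ, hγ⟩, Finset.mem_attach _ _, rfl⟩, h⟩) i

/-- Elements of an algebra generated by a finite set and monomials. -/
theorem exists_finset_adjoin {F : Set K} {χ : 𝕂 → K} {Γ : Set 𝕂} {a : K}
    (ha : a ∈ Algebra.adjoin k (F ∪ χ '' Γ)) :
    ∃ N : Finset 𝕂, (∀ γ ∈ N, γ ∈ Γ) ∧ a ∈ Algebra.adjoin k (F ∪ χ '' (N : Set 𝕂)) := by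
  classical
  have hmono : ∀ N N' : Finset 𝕂, N ⊆ N' →
      Algebra.adjoin k (F ∪ χ '' (N : Set 𝕂)) ≤ Algebra.adjoin k (F ∪ χ '' (N' : Set 𝕂)) :=
    fun N N' h => Algebra.adjoin_mono (Set.union_subset_union_right _
      (Set.image_mono (Finset.coe_subset.2 h)))
  induction ha using Algebra.adjoin_induction with
  | mem a ha =>
    rcases ha with ha | ⟨γ, hγ, rfl⟩
    · exact ⟨∅, by simp, Algebra.subset_adjoin (Or.inl ha)⟩
    · exact ⟨{γ}, by simpa using hγ, Algebra.subset_adjoin (Or.inr ⟨γ, by simp, rfl⟩)⟩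
  | algebraMap c => exact ⟨∅, by simp, Subalgebra.algebraMap_mem _ c⟩
  | add a b _ _ ha hb =>
    obtain ⟨N, hN, ha⟩ := ha
    obtain ⟨M, hM, hb⟩ := hb
    refine ⟨N ∪ M, fun γ hγ => ?_, add_mem (hmono _ _ Finset.subset_union_left ha)
      (hmono _ _ Finset.subset_union_right hb)⟩
    rcases Finset.mem_union.1 hγ with h | h
    · exact hN γ h
    · exact hM γ h
  | mul a b _ _ ha hb =>
    obtain ⟨N, hN, ha⟩ := ha
    obtain ⟨M, hM, hb⟩ := hb
    refine ⟨N ∪ M, fun γ hγ => ?_, mul_mem (hmono _ _ Finset.subset_union_left ha)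
      (hmono _ _ Finset.subset_union_right hb)⟩
    rcases Finset.mem_union.1 hγ with h | h
    · exact hN γ h
    · exact hM γ h

omit [LinearOrder 𝕂] [IsStrictOrderedRing 𝕂] [Field 𝕂] in
/-- A chart from common denominators. -/
theorem exists_chart_of_den {V : ValuationSubring K} (A : Subalgebra k K) (M : Submonoid K)
    (hM : ∀ b ∈ M, b ∈ A ∧ b ≠ 0) (F : Finset K)
    (hF : ∀ f ∈ F, V.valuation f ≤ 1 ∧ ∃ b ∈ M, f * b ∈ A) :
    ∃ g ∈ M, IsChart V A (Algebra.adjoin k ((A : Set K) ∪ F)) g := by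
  classical
  obtain ⟨g, hg, hgF⟩ : ∃ g ∈ M, ∀ f ∈ F, f * g ∈ A := by
    have : ∀ s ⊆ F, ∃ g ∈ M, ∀ f ∈ s, f * g ∈ A := by
      intro s
      induction s using Finset.induction_on with
      | empty => exact fun _ => ⟨1, M.one_mem, by simp⟩
      | insert f s hf ih =>
        intro hs
        obtain ⟨g, hg, hgs⟩ := ih fun x hx => hs (Finset.mem_insert_of_mem hx)
        obtain ⟨b, hb, hfb⟩ := (hF f (hs (Finset.mem_insert_self f s))).2
        refine ⟨g * b, M.mul_mem hg hb, fun x hx => ?_⟩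
        rcases Finset.mem_insert.1 hx with rfl | hx
        · have h1 : x * (g * b) = (x * b) * g := by ring
          rw [h1]
          exact A.mul_mem hfb (hM g hg).1
        · have h1 : x * (g * b) = (x * g) * b := by ring
          rw [h1]
          exact A.mul_mem (hgs x hx) (hM b hb).1
    exact this F (Finset.Subset.refl _)
  have hg0 := (hM g hg).2
  refine ⟨g, hg, (hM g hg).1, hg0, F.image fun f => f * g, fun x hx => ?_, ?_⟩
  · obtain ⟨f, hf, rfl⟩ := Finset.mem_image.1 hx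
    refine ⟨hgF f hf, ?_⟩
    rw [map_mul]
    exact mul_le_of_le_one_left zero_le (hF f hf).1
  · congr 2
    ext y
    simp only [Finset.coe_image, Set.mem_image, exists_exists_and_eq_and, Finset.mem_coe]
    constructor
    · intro hy
      exact ⟨y, hy, mul_div_cancel_right₀ _ hg0⟩
    · rintro ⟨f, hf, rfl⟩
      rw [mul_div_cancel_right₀ _ hg0]
      exact hf

/-- The elements of the ring of a frame are in the level rings of fine bases. -/
theorem FRK.exists_level {V' : ValuationSubring K} (hv : RelO V' v) (C : FRK k v r D)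
    (hk : ∀ c : k, algebraMap k K c ∈ V')
    (hres : ∀ f ∈ V', ∃ c : k, V'.valuation (f - algebraMap k K c) < 1) :
    ∃ F : Finset K, (∀ f ∈ F, f ∈ C.R ∧ V'.valuation f < 1) ∧
      ∀ e ∈ C.R, ∃ N : Finset 𝕂, (∀ γ ∈ N, γ ∈ C.Γ ∧ 0 ≤ γ) ∧
        ∀ X : Set K, (∀ γ ∈ N, C.χ γ ∈ Algebra.adjoin k X) →
          e ∈ locV V' (Algebra.adjoin k ((F : Set K) ∪ X)) := by
  classical
  obtain ⟨F₀, hF₀, hgen⟩ := C.fgen
  have hRV : ∀ f ∈ C.R, f ∈ V' := by
    intro f hf
    by_cases h0 : f = 0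
    · rw [h0]; exact V'.zero_mem
    · exact (hv f h0).2 (C.nonneg f hf h0)
  choose! c hc using hres
  refine ⟨F₀.image fun f => f - algebraMap k K (c f), fun f hf => ?_, fun e he => ?_⟩
  · obtain ⟨g, hg, rfl⟩ := Finset.mem_image.1 hf
    exact ⟨C.R.sub_mem (hF₀ g hg) (C.R.algebraMap_mem _), hc g (hRV g (hF₀ g hg))⟩
  · obtain ⟨a, ha, b, hb, hb0, hvb, rfl⟩ := hgen e he
    obtain ⟨N, hN, ha⟩ := exists_finset_adjoin ha
    obtain ⟨M, hM, hb⟩ := exists_finset_adjoin hb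
    refine ⟨N ∪ M, fun γ hγ => ?_, fun X hX => ?_⟩
    · rcases Finset.mem_union.1 hγ with h | h
      · exact hN γ h
      · exact hM γ h
    · have key : ∀ N' : Finset 𝕂, N' ⊆ N ∪ M →
          Algebra.adjoin k ((F₀ : Set K) ∪ C.χ '' (N' : Set 𝕂)) ≤
            Algebra.adjoin k (((F₀.image fun f => f - algebraMap k K (c f) : Finset K) : Set K) ∪
              X) := by
        intro N' hN'
        refine Algebra.adjoin_le ?_
        rintro f (hf | ⟨γ, hγ, rfl⟩)
        · have h1 : f - algebraMap k K (c f) ∈ Algebra.adjoin k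
              (((F₀.image fun f => f - algebraMap k K (c f) : Finset K) : Set K) ∪ X) :=
            Algebra.subset_adjoin (Or.inl (Finset.mem_coe.2 (Finset.mem_image_of_mem _ hf)))
          have h2 := Subalgebra.add_mem _ h1 (Subalgebra.algebraMap_mem _ (c f))
          rwa [sub_add_cancel] at h2
        · exact Algebra.adjoin_mono Set.subset_union_right (hX γ (hN' hγ))
      exact ⟨a, key N Finset.subset_union_left ha, b, key M Finset.subset_union_right hb,
        (hv.eq_one_iff hb0).2 hvb, rfl⟩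

/-- **A frame gives log uniformization of the real coarsenings.** -/
theorem lurAt_of_frame {V' V : ValuationSubring K} (hle : V' ≤ V) (hR1 : IsR1 V)
    (hk : ∀ c : k, algebraMap k K c ∈ V')
    (hres : ∀ f ∈ V', ∃ c : k, V'.valuation (f - algebraMap k K c) < 1)
    (hv : RelO V' v) (htr : Algebra.trdeg k K = ((r + D : ℕ) : Cardinal)) (C : FRK k v r D)
    {A : Subalgebra k K} (hfg : A.FG) (hfrac : IsFrac A) (hAR : A ≤ C.R)
    (hden : ∀ f ∈ C.R, ∃ a ∈ A, ∃ b ∈ A, C.Mono b ∧ f = a / b) (T : Finset K)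
    (hT : ∀ t ∈ T, C.Mono t) : LUrAt V A T := by
  classical
  have hRV : ∀ f ∈ C.R, f ∈ V' := by
    intro f hf
    by_cases h0 : f = 0
    · rw [h0]; exact V'.zero_mem
    · exact (hv f h0).2 (C.nonneg f hf h0)
  have hA : ∀ f ∈ A, f ∈ V' := fun f hf => hRV f (hAR hf)
  obtain ⟨F, hF, hlev⟩ := C.exists_level hv hk hres
  choose! N hN hNX using hlev
  -- monomials
  have hMa : ∀ f b a : K, f = a / b → C.Mono b → C.Mono f → a = f * b ∧ C.Mono a := by
    rintro f b a hfab ⟨hb0, hbΓ, hbR⟩ ⟨hf0, hfΓ, hfR⟩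
    have h1 : a = f * b := by rw [hfab, div_mul_cancel₀ _ hb0]
    refine ⟨h1, ?_⟩
    rw [h1]
    refine ⟨mul_ne_zero hf0 hb0, ?_, ?_⟩
    · rw [v.map_mul hf0 hb0]
      exact C.Γ.add_mem hfΓ hbΓ
    · rw [v.map_mul hf0 hb0, C.χ_add _ hfΓ _ hbΓ, mul_div_mul_comm]
      exact C.R.mul_mem hfR hbR
  have hMχ : ∀ γ ∈ C.Γ, C.Mono (C.χ γ) := by
    intro γ hγ
    refine ⟨C.χ_ne γ hγ, by rw [C.χ_val γ hγ]; exact hγ, ?_⟩
    rw [C.χ_val γ hγ, div_self (C.χ_ne γ hγ)]
    exact C.R.one_mem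
  -- denominators of the generators
  choose! α hα β hβ hβM hαβ using hden
  obtain ⟨S, hS⟩ := C.fg
  have habsΓ : ∀ γ ∈ S, |γ| ∈ C.Γ := by
    intro γ hγ
    have h1 : γ ∈ C.Γ := by rw [← hS]; exact AddSubgroup.subset_closure hγ
    rcases abs_choice γ with h | h
    · rw [h]; exact h1
    · rw [h]; exact C.Γ.neg_mem h1
  have habsR : ∀ γ ∈ S, C.χ |γ| ∈ C.R := fun γ hγ => C.χ_mem _ (habsΓ γ hγ) (abs_nonneg γ)
  let B : Finset K := (F.image β ∪ S.image fun γ => β (C.χ |γ|)) ∪ S.image fun γ => α (C.χ |γ|)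
  have hB : ∀ b ∈ B, b ∈ A ∧ C.Mono b := by
    intro b hb
    rcases Finset.mem_union.1 hb with hb | hb
    · rcases Finset.mem_union.1 hb with hb | hb
      · obtain ⟨f, hf, rfl⟩ := Finset.mem_image.1 hb
        exact ⟨hβ f (hF f hf).1, hβM f (hF f hf).1⟩
      · obtain ⟨γ, hγ, rfl⟩ := Finset.mem_image.1 hb
        exact ⟨hβ _ (habsR γ hγ), hβM _ (habsR γ hγ)⟩
    · obtain ⟨γ, hγ, rfl⟩ := Finset.mem_image.1 hb
      exact ⟨hα _ (habsR γ hγ), (hMa _ _ _ (hαβ _ (habsR γ hγ)) (hβM _ (habsR γ hγ))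
        (hMχ _ (habsΓ γ hγ))).2⟩
  let M : Submonoid K := Submonoid.closure (B : Set K)
  have hM : ∀ b ∈ M, b ∈ A ∧ b ≠ 0 := by
    intro b hb
    induction hb using Submonoid.closure_induction with
    | mem b hb => exact ⟨(hB b hb).1, (hB b hb).2.1⟩
    | one => exact ⟨A.one_mem, one_ne_zero⟩
    | mul a b _ _ ha hb => exact ⟨A.mul_mem ha.1 hb.1, mul_ne_zero ha.2 hb.2⟩
  have hχM : ∀ γ ∈ C.Γ, ∃ a ∈ M, ∃ b ∈ M, C.χ γ = a / b := by
    intro γ hγ
    rw [← hS] at hγ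
    have hmul : ∀ x y : 𝕂, x ∈ C.Γ → y ∈ C.Γ → (∃ a ∈ M, ∃ b ∈ M, C.χ x = a / b) →
        (∃ a ∈ M, ∃ b ∈ M, C.χ y = a / b) → ∃ a ∈ M, ∃ b ∈ M, C.χ (x + y) = a / b := by
      rintro x y hx hy ⟨a, ha, b, hb, h1⟩ ⟨c, hc, d, hd, h2⟩
      exact ⟨a * c, M.mul_mem ha hc, b * d, M.mul_mem hb hd, by
        rw [C.χ_add x hx y hy, h1, h2, div_mul_div_comm]⟩
    have hneg : ∀ x : 𝕂, x ∈ C.Γ → (∃ a ∈ M, ∃ b ∈ M, C.χ x = a / b) →
        ∃ a ∈ M, ∃ b ∈ M, C.χ (-x) = a / b := by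
      rintro x hx ⟨a, ha, b, hb, h1⟩
      exact ⟨b, hb, a, ha, by rw [C.χ_neg hx, h1, inv_div]⟩
    induction hγ using AddSubgroup.closure_induction with
    | mem γ hγ =>
      have h1 : ∃ a ∈ M, ∃ b ∈ M, C.χ |γ| = a / b :=
        ⟨_, Submonoid.subset_closure (Finset.mem_coe.2 (Finset.mem_union_right _
          (Finset.mem_image_of_mem (fun γ => α (C.χ |γ|)) hγ))), _,
          Submonoid.subset_closure (Finset.mem_coe.2 (Finset.mem_union_left _
          (Finset.mem_union_right _ (Finset.mem_image_of_mem (fun γ => β (C.χ |γ|)) hγ)))),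
          hαβ _ (habsR γ hγ)⟩
      rcases abs_choice γ with h | h
      · rwa [h] at h1
      · have h2 := hneg _ (habsΓ γ hγ) h1
        rwa [h, neg_neg] at h2
    | zero => exact ⟨1, M.one_mem, 1, M.one_mem, by rw [C.χ_zero, div_one]⟩
    | add x y hx hy hx' hy' => exact hmul x y (hS ▸ hx) (hS ▸ hy) hx' hy'
    | neg x hx hx' => exact hneg x (hS ▸ hx) hx'
  -- the finite set of elements
  obtain ⟨SA, hSA⟩ := hfg
  have hSAR : ∀ f ∈ SA, f ∈ C.R := fun f hf => hAR (by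
    rw [← hSA]; exact Algebra.subset_adjoin (Finset.mem_coe.2 hf))
  have hFpos : ∀ f ∈ F, VPos v f := fun f hf h0 => (hv.lt_one_iff h0).1 (hF f hf).2
  have hgenF : ∀ f ∈ F, ∃ γ ∈ C.Γ, 0 < γ ∧ ∃ a ∈ C.R, ∃ b : Fin D → K, (∀ i, b i ∈ C.R) ∧
      f = C.χ γ * a + ∑ i, C.y i * b i := fun f hf => C.gen f (hF f hf).1 (hFpos f hf)
  choose! γF hγF hγF0 aF haF bF hbF hFab using hgenF
  let E : Finset K := ((SA ∪ Finset.univ.image C.y) ∪ (F.image aF ∪ F.biUnion fun f =>
    Finset.univ.image (bF f))) ∪ (T ∪ B).image fun t => t / C.χ (v t)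
  have hE : ∀ e ∈ E, e ∈ C.R := by
    intro e he
    rcases Finset.mem_union.1 he with he | he
    · rcases Finset.mem_union.1 he with he | he
      · rcases Finset.mem_union.1 he with he | he
        · exact hSAR e he
        · obtain ⟨i, -, rfl⟩ := Finset.mem_image.1 he
          exact C.y_mem i
      · rcases Finset.mem_union.1 he with he | he
        · obtain ⟨f, hf, rfl⟩ := Finset.mem_image.1 he
          exact haF f hf
        · obtain ⟨f, hf, he⟩ := Finset.mem_biUnion.1 he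
          obtain ⟨i, -, rfl⟩ := Finset.mem_image.1 he
          exact hbF f hf i
    · obtain ⟨t, ht, rfl⟩ := Finset.mem_image.1 he
      rcases Finset.mem_union.1 ht with ht | ht
      · exact (hT t ht).2.2
      · exact (hB t ht).2.2.2
  let NN : Finset 𝕂 := E.biUnion N ∪ F.image γF
  obtain ⟨lam, hlamΓ, hlam0, hlami, hlamg, hlamN⟩ := C.exists_basis NN (by
    intro γ hγ
    rcases Finset.mem_union.1 hγ with hγ | hγ
    · obtain ⟨e, he, hγ⟩ := Finset.mem_biUnion.1 hγ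
      exact hN e (hE e he) γ hγ
    · obtain ⟨f, hf, rfl⟩ := Finset.mem_image.1 hγ
      exact ⟨hγF f hf, (hγF0 f hf).le⟩)
  set x : Fin r → K := fun i => C.χ (lam i) with hx
  have hxne : ∀ i, x i ≠ 0 := fun i => C.χ_ne _ (hlamΓ i)
  have hxv : ∀ i, v (x i) = lam i := fun i => C.χ_val _ (hlamΓ i)
  have hχx : ∀ l : Fin r → ℤ, C.χ (∑ i, l i • lam i) = mx x l := fun l =>
    (C.χ_sum Finset.univ (fun i _ => hlamΓ i) l).2
  -- the level ring
  obtain ⟨X, hX⟩ : ∃ X : Set K, X = (F : Set K) ∪ Set.range x := ⟨_, rfl⟩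
  have hXR : Algebra.adjoin k X ≤ C.R := by
    rw [hX]
    refine Algebra.adjoin_le ?_
    rintro f (hf | ⟨i, rfl⟩)
    · exact (hF f hf).1
    · exact C.χ_mem _ (hlamΓ i) (hlam0 i).le
  have hXV : ∀ f ∈ Algebra.adjoin k X, f ∈ V' := fun f hf => hRV f (hXR hf)
  have hEL : ∀ e ∈ E, e ∈ locV V' (Algebra.adjoin k X) := by
    intro e he
    rw [hX]
    refine hNX e (hE e he) _ fun γ hγ => ?_
    obtain ⟨l, hl, hγl⟩ := hlamN γ (Finset.mem_union_left _ (Finset.mem_biUnion.2 ⟨e, he, hγ⟩))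
    rw [hγl, hχx]
    exact mx_mem (fun i => Algebra.subset_adjoin (Set.mem_range_self i)) hl
  have hAL : A ≤ locV V' (Algebra.adjoin k X) := by
    rw [← hSA]
    refine Algebra.adjoin_le fun f hf => hEL f ?_
    exact Finset.mem_union_left _ (Finset.mem_union_left _ (Finset.mem_union_left _ hf))
  have hyL : ∀ i, C.y i ∈ locV V' (Algebra.adjoin k X) := fun i => hEL _
    (Finset.mem_union_left _ (Finset.mem_union_left _ (Finset.mem_union_right _
      (Finset.mem_image_of_mem _ (Finset.mem_univ i)))))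
  have hxX : ∀ i, x i ∈ X := fun i => hX ▸ Set.mem_union_right _ (Set.mem_range_self i)
  have hxL : ∀ i, x i ∈ locV V' (Algebra.adjoin k X) := fun i => le_locV _
    (Algebra.subset_adjoin (hxX i))
  have hxI : ∀ i, InI (locV V' (Algebra.adjoin k X)) (Fin.append x C.y) (x i) := fun i => by
    have := InI.self (R := locV V' (Algebra.adjoin k X)) (z := Fin.append x C.y)
      (Fin.castAdd D i)
    rwa [Fin.append_left] at this
  have hyI : ∀ i, InI (locV V' (Algebra.adjoin k X)) (Fin.append x C.y) (C.y i) := fun i => by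
    have := InI.self (R := locV V' (Algebra.adjoin k X)) (z := Fin.append x C.y)
      (Fin.natAdd r i)
    rwa [Fin.append_right] at this
  have hzL : ∀ i, Fin.append x C.y i ∈ locV V' (Algebra.adjoin k X) := by
    intro i
    refine Fin.addCases (fun i => ?_) (fun i => ?_) i
    · rw [Fin.append_left]; exact hxL i
    · rw [Fin.append_right]; exact hyL i
  have hzne : ∀ i, Fin.append x C.y i ≠ 0 := by
    intro i
    refine Fin.addCases (fun i => ?_) (fun i => ?_) i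
    · rw [Fin.append_left]; exact hxne i
    · rw [Fin.append_right]; exact C.y_ne i
  have hzpos : ∀ i, V'.valuation (Fin.append x C.y i) < 1 := by
    intro i
    refine Fin.addCases (fun i => ?_) (fun i => ?_) i
    · rw [Fin.append_left, hv.lt_one_iff (hxne i), hxv]
      exact hlam0 i
    · rw [Fin.append_right, hv.lt_one_iff (C.y_ne i)]
      exact C.y_pos i
  have hgenX : ∀ f ∈ locV V' (Algebra.adjoin k X), V'.valuation f < 1 →
      ∃ a : Fin (r + D) → K, (∀ i, a i ∈ locV V' (Algebra.adjoin k X)) ∧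
        f = ∑ i, a i * Fin.append x C.y i := by
    refine gen_of_adjoin hk hXV hzL hzpos ?_
    intro f hf
    rw [hX] at hf
    rcases hf with hf | ⟨i, rfl⟩
    · have hf' : f ∈ F := hf
      have h1 : InI (locV V' (Algebra.adjoin k X)) (Fin.append x C.y) f := by
        rw [hFab f hf']
        obtain ⟨l, hl, hγl⟩ := hlamN (γF f) (Finset.mem_union_right _
          (Finset.mem_image_of_mem _ hf'))
        refine InI.add ?_ (InI.sum _ fun i _ => ?_)
        · rw [mul_comm]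
          refine InI.mul (hEL _ ?_) ?_
          · exact Finset.mem_union_left _ (Finset.mem_union_right _ (Finset.mem_union_left _
              (Finset.mem_image_of_mem _ hf')))
          · rw [hγl, hχx]
            refine InI.mx hxne hxL hxI hl ?_
            rintro rfl
            have h2 := hγF0 f hf'
            rw [hγl] at h2
            simp at h2
        · rw [mul_comm]
          refine InI.mul (hEL _ ?_) (hyI i)
          exact Finset.mem_union_left _ (Finset.mem_union_right _ (Finset.mem_union_right _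
            (Finset.mem_biUnion.2 ⟨f, hf', Finset.mem_image_of_mem _ (Finset.mem_univ i)⟩)))
      obtain ⟨a, ha, hfa⟩ := h1
      exact ⟨0, a, ha, by rw [map_zero, zero_add]; exact hfa⟩
    · obtain ⟨a, ha, hfa⟩ := hxI i
      exact ⟨0, a, ha, by rw [map_zero, zero_add]; exact hfa⟩
  -- the chart
  have hXfin : ∃ X' : Finset K, (X' : Set K) = X := by
    refine ⟨F ∪ Finset.univ.image x, ?_⟩
    rw [hX]
    push_cast
    rw [Set.image_univ]
  obtain ⟨X', hX'⟩ := hXfin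
  obtain ⟨g, hgM, hch⟩ := exists_chart_of_den (V := V) A M hM X' (by
    intro f hf
    have hf' : f ∈ X := by rw [← hX']; exact hf
    refine ⟨(V.valuation_le_one_iff f).2 (hle (hXV f (Algebra.subset_adjoin hf'))), ?_⟩
    rw [hX] at hf'
    rcases hf' with hf' | ⟨i, rfl⟩
    · refine ⟨β f, Submonoid.subset_closure (Finset.mem_coe.2 (Finset.mem_union_left _
        (Finset.mem_union_left _ (Finset.mem_image_of_mem _ hf')))), ?_⟩
      have h1 := hαβ f (hF f hf').1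
      have h2 : f * β f = α f := by
        have h3 := div_mul_cancel₀ (α f) (hβM f (hF f hf').1).1
        rwa [← h1] at h3
      rw [h2]
      exact hα f (hF f hf').1
    · obtain ⟨a, ha, b, hb, hab⟩ := hχM _ (hlamΓ i)
      refine ⟨b, hb, ?_⟩
      have h2 : x i * b = a := by
        change C.χ (lam i) * b = a
        rw [hab, div_mul_cancel₀ _ (hM b hb).2]
      rw [h2]
      exact (hM a ha).1)
  rw [hX'] at hch
  set A₁ : Subalgebra k K := Algebra.adjoin k ((A : Set K) ∪ X) with hA₁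
  have hXA₁ : Algebra.adjoin k X ≤ A₁ := Algebra.adjoin_mono Set.subset_union_right
  have hAA₁ : A ≤ A₁ := fun a ha => Algebra.subset_adjoin (Or.inl ha)
  have hloc : locV V' A₁ = locV V' (Algebra.adjoin k X) := by
    refine le_antisymm (locV_le (Algebra.adjoin_le ?_) fun f hf h1 => locV_inv hf h1)
      (locV_mono hXA₁)
    rintro f (hf | hf)
    · exact hAL hf
    · exact le_locV _ (Algebra.subset_adjoin hf)
  have hA₁V' : ∀ f ∈ A₁, f ∈ V' := by
    intro f hf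
    have h1 : f ∈ locV V' A₁ := le_locV _ hf
    rw [hloc] at h1
    exact locV_mem hXV f h1
  have hA₁fg : A₁.FG := hch.fg ⟨SA, hSA⟩
  have hA₁frac : IsFrac A₁ := by
    intro f
    obtain ⟨a, ha, b, hb, hb0, hab⟩ := hfrac f
    exact ⟨a, hAA₁ ha, b, hAA₁ hb, hb0, hab⟩
  have hpar : IsPar V' (locV V' A₁) (Fin.append x C.y) := by
    refine isPar_of_gen hk hres A₁ hA₁fg hA₁V' hA₁frac htr ?_ hzne hzpos ?_
    · rw [hloc]; exact hzL
    · rw [hloc]; exact hgenX
  have hTB : ∀ t ∈ T ∪ B, ∃ l : Fin r → ℤ, ∃ u ∈ locV V' A₁, V'.valuation u = 1 ∧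
      t = mx x l * u := by
    intro t ht
    have hMt : C.Mono t := by
      rcases Finset.mem_union.1 ht with ht | ht
      · exact hT t ht
      · exact (hB t ht).2
    obtain ⟨l, hl⟩ := hlamg (v t) hMt.2.1
    have h0 : t / C.χ (v t) ≠ 0 := div_ne_zero hMt.1 (C.χ_ne _ hMt.2.1)
    refine ⟨l, t / C.χ (v t), ?_, ?_, ?_⟩
    · rw [hloc]
      exact hEL _ (Finset.mem_union_right _ (Finset.mem_image_of_mem (fun t => t / C.χ (v t)) ht))
    · rw [hv.eq_one_iff h0, v.map_div hMt.1 (C.χ_ne _ hMt.2.1), C.χ_val _ hMt.2.1, sub_self]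
    · rw [← hχx, ← hl, mul_div_cancel₀ _ (C.χ_ne _ hMt.2.1)]
  have hgT : ∃ l : Fin r → ℤ, ∃ u ∈ locV V' A₁, V'.valuation u = 1 ∧ g = mx x l * u := by
    have : ∀ b ∈ M, ∃ l : Fin r → ℤ, ∃ u ∈ locV V' A₁, V'.valuation u = 1 ∧
        b = mx x l * u := by
      intro b hb
      induction hb using Submonoid.closure_induction with
      | mem b hb => exact hTB b (Finset.mem_union_right _ hb)
      | one => exact ⟨0, 1, Subalgebra.one_mem _, map_one _, by rw [mx_zero, mul_one]⟩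
      | mul a b _ _ ha hb =>
        obtain ⟨l, u, hu, hu1, rfl⟩ := ha
        obtain ⟨m, w, hw, hw1, rfl⟩ := hb
        exact ⟨l + m, u * w, Subalgebra.mul_mem _ hu hw, by rw [map_mul, hu1, hw1, one_mul], by
          rw [mx_add hxne]; ring⟩
    exact this g hgM
  have hlur : LUrAt V A₁ (insert g T) := by
    refine lurAt_of_mono hle hR1 hk hres hv hA₁fg hA₁V' hA₁frac htr hpar ?_ ?_ _ ?_
    · have : (fun i => v (x i)) = lam := funext hxv
      rw [this]
      exact hlami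
    · intro i
      exact hXA₁ (Algebra.subset_adjoin (hxX i))
    · intro t ht
      rcases Finset.mem_insert.1 ht with rfl | ht
      · exact hgT
      · exact hTB t (Finset.mem_union_left _ ht)
  exact LUrAt.of_chart (fun a ha => hle (hA a ha)) hch (Finset.mem_insert_self _ _)
    (fun t ht => Finset.mem_insert_of_mem ht) hlur

end

end Pool.Agent.ALL68
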