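import Pool.Agent.Lib.LU2_h15.AbhA

/-!
# PROJECT ALL, 7E: zero-dimensional refinements, rational rank
-/

set_option autoImplicit false

namespace Pool.Agent.ALL68

open Polynomial Pool.Agent.LU2

universe u

variable {k K : Type u} [Field k] [Field K] [Algebra k K]

/-- The intersection of a chain of valuation rings. -/
def chainInf (c : Set (ValuationSubring K)) (hc : IsChain (· ≤ ·) c) (hne : c.Nonempty) :
    ValuationSubring K where
  carrier := {x | ∀ W ∈ c, x ∈ W}
  mul_mem' := fun {a b} ha hb W hW => W.mul_mem _ _ (ha W hW) (hb W hW)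
  one_mem' := fun W _ => W.one_mem
  add_mem' := fun {a b} ha hb W hW => W.add_mem _ _ (ha W hW) (hb W hW)
  zero_mem' := fun W _ => W.zero_mem
  neg_mem' := fun {a} ha W hW => W.neg_mem _ (ha W hW)
  mem_or_inv_mem' := by
    intro x
    by_contra h
    push Not at h
    obtain ⟨h1, h2⟩ := h
    have h1' : ¬ ∀ W ∈ c, x ∈ W := h1
    have h2' : ¬ ∀ W ∈ c, x⁻¹ ∈ W := h2
    push Not at h1' h2'
    obtain ⟨W₁, hW₁, hx₁⟩ := h1'
    obtain ⟨W₂, hW₂, hx₂⟩ := h2'
    rcases hc.total hW₁ hW₂ with h | h
    · exact hx₂ (h ((W₁.mem_or_inv_mem x).resolve_left hx₁))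
    · exact hx₁ (h ((W₂.mem_or_inv_mem x).resolve_right hx₂))

/-- Below every valuation ring over `k` there is a minimal one. -/
theorem exists_min (V : ValuationSubring K) (hk : ∀ c : k, algebraMap k K c ∈ V) :
    ∃ W : ValuationSubring K, W ≤ V ∧ (∀ c : k, algebraMap k K c ∈ W) ∧
      ∀ W' : ValuationSubring K, (∀ c : k, algebraMap k K c ∈ W') → W' ≤ W → W' = W := by
  let S : Set (ValuationSubring K)ᵒᵈ :=
    {W | ∀ c : k, algebraMap k K c ∈ (OrderDual.ofDual W : ValuationSubring K)}
  obtain ⟨W, hVW, hW⟩ := zorn_le_nonempty₀ S (fun c hcS hc y hy => by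
    have hc' : IsChain (· ≤ ·) (OrderDual.ofDual '' c : Set (ValuationSubring K)) := by
      rintro _ ⟨a, ha, rfl⟩ _ ⟨b, hb, rfl⟩ hab
      have hab' : a ≠ b := fun h => hab (by rw [h])
      exact (hc ha hb hab').symm
    refine ⟨OrderDual.toDual (chainInf _ hc' ⟨_, y, hy, rfl⟩), ?_, ?_⟩
    · rintro a _ ⟨W, hW, rfl⟩
      exact hcS hW a
    · intro z hz x hx
      exact hx _ ⟨z, hz, rfl⟩) (OrderDual.toDual V) hk
  refine ⟨OrderDual.ofDual W, hVW, hW.1, fun W' hW' hle => ?_⟩
  have h1 : W ≤ OrderDual.toDual W' := hle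
  exact le_antisymm hle (hW.2 hW' h1)

theorem mul_lt_one_of_le_of_lt' {Γ₀ : Type*} [LinearOrderedCommGroupWithZero Γ₀] {a b : Γ₀}
    (ha : a ≤ 1) (hb : b < 1) : a * b < 1 := by
  rw [mul_comm]
  exact mul_lt_one_of_lt_of_le hb ha

theorem aeval_val_le {W : ValuationSubring K} (hk : ∀ c : k, algebraMap k K c ∈ W) {t : K}
    (ht : t ∈ W) (q : k[X]) : W.valuation (aeval t q) ≤ 1 := by
  rw [W.valuation_le_one_iff]
  induction q using Polynomial.induction_on' with
  | add p q hp hq => rw [map_add]; exact W.add_mem _ _ hp hq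
  | monomial n a =>
    rw [aeval_monomial]
    exact W.mul_mem _ _ (hk a) (pow_mem ht n)

theorem aeval_val_eq [IsAlgClosed k] {W : ValuationSubring K}
    (hk : ∀ c : k, algebraMap k K c ∈ W) {t : K}
    (ht : ∀ c : k, W.valuation (t - algebraMap k K c) = 1) :
    ∀ (n : ℕ) (q : k[X]), q.natDegree = n → q ≠ 0 → W.valuation (aeval t q) = 1 := by
  have hconst : ∀ a : k, a ≠ 0 → W.valuation (algebraMap k K a) = 1 := by
    intro a ha
    refine le_antisymm ((W.valuation_le_one_iff _).2 (hk a)) ?_
    have h1 := (W.valuation_le_one_iff _).2 (hk a⁻¹)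
    have h2 : W.valuation (algebraMap k K a) * W.valuation (algebraMap k K a⁻¹) = 1 := by
      rw [← map_mul, ← map_mul, mul_inv_cancel₀ ha, map_one, map_one]
    by_contra h3
    push Not at h3
    have := mul_lt_one_of_lt_of_le h3 h1
    rw [h2] at this
    exact lt_irrefl _ this
  intro n
  induction n with
  | zero =>
    intro q hq hq0
    rw [Polynomial.eq_C_of_natDegree_eq_zero hq, aeval_C]
    refine hconst _ ?_
    intro h
    apply hq0
    rw [Polynomial.eq_C_of_natDegree_eq_zero hq, h, map_zero]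
  | succ n ih =>
    intro q hq hq0
    have hdeg : q.degree ≠ 0 := by
      intro h
      rw [Polynomial.natDegree_eq_zero_iff_degree_le_zero.2 h.le] at hq
      omega
    obtain ⟨c, hc⟩ := IsAlgClosed.exists_root q hdeg
    obtain ⟨g, hg⟩ := Polynomial.dvd_iff_isRoot.2 hc
    have hg0 : g ≠ 0 := by
      rintro rfl
      rw [mul_zero] at hg
      exact hq0 hg
    have hgn : g.natDegree = n := by
      have h := congrArg Polynomial.natDegree hg
      rw [Polynomial.natDegree_mul (Polynomial.X_sub_C_ne_zero c) hg0,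
        Polynomial.natDegree_X_sub_C] at h
      omega
    rw [hg, map_mul, map_mul, ih g hgn hg0, mul_one, map_sub, aeval_X, aeval_C]
    exact ht c

/-- A minimal valuation ring over the algebraically closed field `k` has residue field `k`. -/
theorem res_of_min [IsAlgClosed k] (W : ValuationSubring K)
    (hk : ∀ c : k, algebraMap k K c ∈ W)
    (hmin : ∀ W' : ValuationSubring K, (∀ c : k, algebraMap k K c ∈ W') → W' ≤ W → W' = W) :
    ∀ f ∈ W, ∃ c : k, W.valuation (f - algebraMap k K c) < 1 := by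
  intro t ht
  by_contra hcon
  push Not at hcon
  have hte : ∀ c : k, W.valuation (t - algebraMap k K c) = 1 := fun c =>
    le_antisymm ((W.valuation_le_one_iff _).2 (sub_mem ht (hk c))) (hcon c)
  have hne : ∀ q : k[X], q ≠ 0 → W.valuation (aeval t q) = 1 := fun q hq =>
    aeval_val_eq hk hte _ q rfl hq
  have hle : ∀ q : k[X], W.valuation (aeval t q) ≤ 1 := aeval_val_le hk ht
  -- the product of two approximations
  have hmul : ∀ (f g : K) (q q' : k[X]), W.valuation (f - aeval t q) < 1 →
      W.valuation (g - aeval t q') < 1 → W.valuation (f * g - aeval t (q * q')) < 1 := by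
    intro f g q q' h1 h2
    have e : f * g - aeval t (q * q') = (f - aeval t q) * (g - aeval t q') +
        (aeval t q * (g - aeval t q') + aeval t q' * (f - aeval t q)) := by
      rw [map_mul]
      ring
    rw [e]
    refine Valuation.map_add_lt _ ?_ (Valuation.map_add_lt _ ?_ ?_)
    · rw [map_mul]
      exact mul_lt_one_of_lt_of_le h1 h2.le
    · rw [map_mul]
      exact mul_lt_one_of_le_of_lt' (hle q) h2
    · rw [map_mul]
      exact mul_lt_one_of_le_of_lt' (hle q') h1
  let B : Subring K :=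
    { carrier := {f | ∃ q : k[X], W.valuation (f - aeval t q) < 1}
      mul_mem' := by
        rintro f g ⟨q, hq⟩ ⟨q', hq'⟩
        exact ⟨q * q', hmul f g q q' hq hq'⟩
      one_mem' := ⟨1, by rw [map_one, sub_self, map_zero]; exact zero_lt_one⟩
      add_mem' := by
        rintro f g ⟨q, hq⟩ ⟨q', hq'⟩
        refine ⟨q + q', ?_⟩
        rw [map_add, add_sub_add_comm]
        exact Valuation.map_add_lt _ hq hq'
      zero_mem' := ⟨0, by rw [map_zero, sub_self, map_zero]; exact zero_lt_one⟩
      neg_mem' := by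
        rintro f ⟨q, hq⟩
        refine ⟨-q, ?_⟩
        rw [map_neg, ← neg_sub', Valuation.map_neg]
        exact hq }
  let I : Ideal B :=
    { carrier := {f | ∃ q : k[X], q.eval 0 = 0 ∧ W.valuation ((f : K) - aeval t q) < 1}
      add_mem' := by
        rintro f g ⟨q, hq0, hq⟩ ⟨q', hq0', hq'⟩
        refine ⟨q + q', by rw [eval_add, hq0, hq0', add_zero], ?_⟩
        rw [map_add]
        change W.valuation (((f : K) + (g : K)) - _) < 1
        rw [add_sub_add_comm]
        exact Valuation.map_add_lt _ hq hq'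
      zero_mem' := ⟨0, eval_zero, by
        rw [map_zero, sub_zero]
        change W.valuation (0 : K) < 1
        rw [map_zero]
        exact zero_lt_one⟩
      smul_mem' := by
        rintro ⟨f, q, hq⟩ g ⟨q', hq0', hq'⟩
        refine ⟨q * q', by rw [eval_mul, hq0', mul_zero], ?_⟩
        exact hmul f g q q' hq hq' }
  have hI : I ≠ ⊤ := by
    rw [Ne, Ideal.eq_top_iff_one]
    rintro ⟨q, hq0, hq⟩
    have h1 : (1 : k[X]) - q ≠ 0 := by
      intro h
      have h2 := congrArg (Polynomial.eval 0) h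
      rw [eval_sub, hq0, eval_one, sub_zero, eval_zero] at h2
      exact one_ne_zero h2
    have h3 := hne _ h1
    rw [map_sub, map_one] at h3
    have h4 : W.valuation ((1 : K) - aeval t q) < 1 := hq
    rw [h3] at h4
    exact lt_irrefl _ h4
  obtain ⟨W', hBW', hIW'⟩ := Ideal.image_subset_nonunits_valuationSubring I hI
  have hsmall : ∀ x : K, W.valuation x < 1 → x ∈ W'.nonunits := by
    intro x hx
    have hxB : x ∈ B := ⟨0, by rw [map_zero, sub_zero]; exact hx⟩
    refine hIW' ⟨⟨x, hxB⟩, ⟨0, eval_zero, ?_⟩, rfl⟩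
    rw [map_zero, sub_zero]
    exact hx
  have hle' : W' ≤ W := by
    intro x hx
    by_contra hxW
    have hx0 : x ≠ 0 := by
      rintro rfl
      exact hxW W.zero_mem
    have h1 : 1 < W.valuation x := by
      rw [← not_le, W.valuation_le_one_iff]
      exact hxW
    have h2 : W.valuation x⁻¹ < 1 := by
      rw [map_inv₀]
      exact inv_lt_one_of_one_lt₀ h1
    have h3 := hsmall _ h2
    rw [ValuationSubring.mem_nonunits_iff] at h3
    have h4 : W'.valuation x ≤ 1 := (W'.valuation_le_one_iff x).2 hx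
    have h5 : W'.valuation x * W'.valuation x⁻¹ = 1 := by
      rw [← map_mul, mul_inv_cancel₀ hx0, map_one]
    have h6 := mul_lt_one_of_le_of_lt' h4 h3
    rw [h5] at h6
    exact lt_irrefl _ h6
  have hk' : ∀ c : k, algebraMap k K c ∈ W' := by
    intro c
    refine hBW' ⟨C c, ?_⟩
    rw [aeval_C, sub_self, map_zero]
    exact zero_lt_one
  have heq := hmin W' hk' hle'
  have htB : t ∈ B := ⟨X, by rw [aeval_X, sub_self, map_zero]; exact zero_lt_one⟩
  have h1 : t ∈ W'.nonunits := by
    refine hIW' ⟨⟨t, htB⟩, ⟨X, eval_X, ?_⟩, rfl⟩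
    rw [aeval_X, sub_self, map_zero]
    exact zero_lt_one
  rw [heq, ValuationSubring.mem_nonunits_iff] at h1
  have h2 := hte 0
  rw [map_zero, sub_zero] at h2
  rw [h2] at h1
  exact lt_irrefl _ h1

/-- (a) Every valuation ring over an algebraically closed field `k` contains one whose residue
field is `k`. -/
theorem exists_zeroDim [IsAlgClosed k] (V : ValuationSubring K)
    (hk : ∀ c : k, algebraMap k K c ∈ V) :
    ∃ W : ValuationSubring K, W ≤ V ∧ (∀ c : k, algebraMap k K c ∈ W) ∧
      ∀ f ∈ W, ∃ c : k, W.valuation (f - algebraMap k K c) < 1 := by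
  obtain ⟨W, hWV, hWk, hmin⟩ := exists_min V hk
  exact ⟨W, hWV, hWk, res_of_min W hWk hmin⟩

/-- (b) Finite rational rank: elements `x` with independent values, such that all values are
torsion modulo those of the `x i`. -/
theorem exists_rank (V : ValuationSubring K) (hk : ∀ c : k, algebraMap k K c ∈ V) {n : ℕ}
    (hn : Algebra.trdeg k K = n) :
    ∃ r ≤ n, ∃ x : Fin r → K, IndVal V x ∧ ∀ f : K, f ≠ 0 →
      ∃ m : ℕ, 0 < m ∧ ∃ e : Fin r → ℤ, V.valuation f ^ m = V.valuation (∏ i, x i ^ e i) := by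
  classical
  have hbound : ∀ r : ℕ, (∃ x : Fin r → K, IndVal V x) → r ≤ n := by
    rintro r ⟨x, hx⟩
    have h := abhyankar (d := 0) hk hx (z := Fin.elim0) ⟨fun i => i.elim0, fun P hP => by
      by_contra hP0
      have h1 : V.valuation (MvPolynomial.aeval (Fin.elim0 : Fin 0 → K) P) < 1 := hP
      obtain ⟨c, rfl⟩ := MvPolynomial.C_surjective (Fin 0) P
      rw [MvPolynomial.aeval_C] at h1
      have hc : c ≠ 0 := by
        rintro rfl
        exact hP0 (map_zero _)
      have h2 := (V.valuation_le_one_iff _).2 (hk c⁻¹)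
      have h3 : V.valuation (algebraMap k K c) * V.valuation (algebraMap k K c⁻¹) = 1 := by
        rw [← map_mul, ← map_mul, mul_inv_cancel₀ hc, map_one, map_one]
      have h4 := mul_lt_one_of_lt_of_le h1 h2
      rw [h3] at h4
      exact lt_irrefl _ h4⟩
    rw [hn, add_zero] at h
    exact_mod_cast h
  have hex : ∃ r : ℕ, (∃ x : Fin r → K, IndVal V x) ∧
      ∀ r' : ℕ, (∃ x : Fin r' → K, IndVal V x) → r' ≤ r := by
    have h0 : ∃ x : Fin 0 → K, IndVal V x := ⟨Fin.elim0, fun i => i.elim0, fun e _ =>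
      Subsingleton.elim _ _⟩
    refine ⟨Nat.findGreatest (fun r => ∃ x : Fin r → K, IndVal V x) n,
      Nat.findGreatest_spec (P := fun r => ∃ x : Fin r → K, IndVal V x) (Nat.zero_le n) h0, ?_⟩
    intro r' hr'
    exact Nat.le_findGreatest (hbound r' hr') hr'
  obtain ⟨r, ⟨x, hx⟩, hmax⟩ := hex
  refine ⟨r, hbound r ⟨x, hx⟩, x, hx, ?_⟩
  intro f hf
  by_contra hcon
  push Not at hcon
  -- `f, x` would have independent values
  have hind : IndVal V (Fin.cons f x : Fin (r + 1) → K) := by
    refine ⟨fun i => ?_, fun e he => ?_⟩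
    · refine Fin.cases ?_ (fun i => ?_) i
      · exact hf
      · exact hx.1 i
    · rw [Finsupp.prod_fintype _ _ (by intro i; simp), Fin.prod_univ_succ, Fin.cons_zero] at he
      simp only [Fin.cons_succ] at he
      have key : e 0 = 0 := by
        by_contra h0
        rcases lt_or_gt_of_ne h0 with h | h
        · obtain ⟨m, hm⟩ : ∃ m : ℕ, e 0 = -(m : ℤ) := ⟨(e 0).natAbs, by omega⟩
          have hm0 : 0 < m := by omega
          refine hcon m hm0 (fun i => e i.succ) ?_
          rw [hm, zpow_neg, zpow_natCast, map_mul, map_inv₀, map_pow] at he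
          have h7 : V.valuation f ^ m ≠ 0 := pow_ne_zero _ ((Valuation.ne_zero_iff _).2 hf)
          exact (inv_mul_eq_one₀ h7).1 he
        · obtain ⟨m, hm⟩ : ∃ m : ℕ, e 0 = (m : ℤ) := ⟨(e 0).natAbs, by omega⟩
          have hm0 : 0 < m := by omega
          refine hcon m hm0 (fun i => -e i.succ) ?_
          rw [hm, zpow_natCast, map_mul, map_pow] at he
          have h1 : (∏ i, x i ^ (-e i.succ)) = (∏ i, x i ^ e i.succ)⁻¹ := by
            rw [← Finset.prod_inv_distrib]
            exact Finset.prod_congr rfl fun i _ => zpow_neg _ _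
          rw [h1, map_inv₀]
          exact eq_inv_of_mul_eq_one_left he
      rw [key, zpow_zero, one_mul] at he
      have h2 := hx.fun_eq (fun i => e i.succ) he
      ext i
      refine Fin.cases ?_ (fun i => ?_) i
      · exact key
      · exact congrFun h2 i
  have := hmax (r + 1) ⟨_, hind⟩
  omega

end Pool.Agent.ALL68
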