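import Pool.Agent.Lib.ALL_h68.Reg
import Pool.Agent.Lib.TAO.Cone

/-!
# PROJECT ALL: monomial changes of parameters (helper68)
-/

set_option autoImplicit false

namespace Pool.Agent.ALL68

open Pool.Agent.LU2 Pool.Agent.TAO

universe u

variable {k K : Type u} [Field k] [Field K] [Algebra k K] {V : ValuationSubring K}

/-! ### monomials -/

omit [Algebra k K] in
/-- Monomials in monomials. -/
theorem mx_lin {r s : ℕ} {x : Fin r → K} (hx : ∀ i, x i ≠ 0)
    (σ : (Fin s → ℤ) →ₗ[ℤ] (Fin r → ℤ)) (l : Fin s → ℤ) :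
    mx (fun j => mx x (σ (Pi.single j 1))) l = mx x (σ l) := by
  rw [mx_mx x (fun j => σ (Pi.single j 1)) l hx]
  congr 1
  have h1 : l = ∑ j, l j • (Pi.single j 1 : Fin s → ℤ) := by
    ext i
    simp [Finset.sum_apply, Pi.single_apply]
  conv_rhs => rw [h1, map_sum]
  funext i
  rw [Matrix.vecMul, dotProduct, Finset.sum_apply]
  refine Finset.sum_congr rfl fun j _ => ?_
  rw [map_smul]
  rfl

omit [Algebra k K] in
theorem mx_linE {r s : ℕ} {x : Fin r → K} (hx : ∀ i, x i ≠ 0)
    (σ : (Fin s → ℤ) ≃ₗ[ℤ] (Fin r → ℤ)) (l : Fin s → ℤ) :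
    mx (fun j => mx x (σ (Pi.single j 1))) l = mx x (σ l) := mx_lin hx σ.toLinearMap l

theorem mx_mem {R : Subalgebra k K} {r : ℕ} {x : Fin r → K} (hx : ∀ i, x i ∈ R)
    {l : Fin r → ℤ} (hl : ∀ i, 0 ≤ l i) : mx x l ∈ R := by
  unfold mx
  refine R.prod_mem fun i _ => ?_
  obtain ⟨n, hn⟩ := Int.eq_ofNat_of_zero_le (hl i)
  rw [hn, zpow_natCast]
  exact R.pow_mem (hx i) n

/-! ### the ideal of the parameters -/

/-- `f` is in the ideal of `R` generated by the `z i`. -/
def InI (R : Subalgebra k K) {n : ℕ} (z : Fin n → K) (f : K) : Prop :=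
  ∃ a : Fin n → K, (∀ i, a i ∈ R) ∧ f = ∑ i, a i * z i

theorem InI.zero {R : Subalgebra k K} {n : ℕ} {z : Fin n → K} : InI R z 0 :=
  ⟨0, fun _ => R.zero_mem, by simp⟩

theorem InI.add {R : Subalgebra k K} {n : ℕ} {z : Fin n → K} {f g : K} (hf : InI R z f)
    (hg : InI R z g) : InI R z (f + g) := by
  obtain ⟨a, ha, rfl⟩ := hf
  obtain ⟨b, hb, rfl⟩ := hg
  refine ⟨fun i => a i + b i, fun i => R.add_mem (ha i) (hb i), ?_⟩
  simp only [add_mul, Finset.sum_add_distrib]

theorem InI.mul {R : Subalgebra k K} {n : ℕ} {z : Fin n → K} {f g : K} (hf : f ∈ R)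
    (hg : InI R z g) : InI R z (f * g) := by
  obtain ⟨b, hb, rfl⟩ := hg
  refine ⟨fun i => f * b i, fun i => R.mul_mem hf (hb i), ?_⟩
  rw [Finset.mul_sum]
  exact Finset.sum_congr rfl fun i _ => by ring

theorem InI.self {R : Subalgebra k K} {n : ℕ} {z : Fin n → K} (i : Fin n) : InI R z (z i) := by
  classical
  refine ⟨Pi.single i 1, fun j => ?_, ?_⟩
  · by_cases hj : j = i
    · subst hj
      rw [Pi.single_eq_same]
      exact R.one_mem
    · rw [Pi.single_eq_of_ne hj]
      exact R.zero_mem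
  · rw [Finset.sum_eq_single i]
    · rw [Pi.single_eq_same, one_mul]
    · intro j _ hj
      rw [Pi.single_eq_of_ne hj, zero_mul]
    · intro h
      exact absurd (Finset.mem_univ i) h

theorem InI.sum {R : Subalgebra k K} {n : ℕ} {z : Fin n → K} {ι : Type*} (s : Finset ι)
    {f : ι → K} (hf : ∀ i ∈ s, InI R z (f i)) : InI R z (∑ i ∈ s, f i) := by
  classical
  induction s using Finset.induction_on with
  | empty => simpa using InI.zero
  | insert i s hi ih =>
    rw [Finset.sum_insert hi]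
    exact (hf i (Finset.mem_insert_self _ _)).add
      (ih fun j hj => hf j (Finset.mem_insert_of_mem hj))

/-- A monomial with non-negative exponents, not all zero, is in the ideal. -/
theorem InI.mx {R : Subalgebra k K} {n r : ℕ} {z : Fin n → K} {x : Fin r → K}
    (hx : ∀ i, x i ≠ 0) (hxR : ∀ i, x i ∈ R) (hxz : ∀ i, InI R z (x i)) {l : Fin r → ℤ}
    (hl : ∀ i, 0 ≤ l i) (hl0 : l ≠ 0) : InI R z (mx x l) := by
  obtain ⟨j, hj⟩ : ∃ j, l j ≠ 0 := by
    by_contra h
    push Not at h
    exact hl0 (funext h)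
  have h1 : TAO.mx x l = TAO.mx x (l - Pi.single j 1) * x j := by
    rw [show l = (l - Pi.single j 1) + Pi.single j 1 from by abel, mx_add hx, mx_single, zpow_one]
    congr 2
    abel
  rw [h1]
  refine InI.mul (mx_mem hxR fun i => ?_) (hxz j)
  rw [Pi.sub_apply]
  by_cases hi : i = j
  · subst hi
    rw [Pi.single_eq_same]
    have := hl i
    omega
  · rw [Pi.single_eq_of_ne hi]
    simpa using hl i

/-! ### the change -/

/-- A monomial change of the first parameters. -/
theorem isPar_change (hk : ∀ c : k, algebraMap k K c ∈ V)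
    (hres : ∀ f ∈ V, ∃ c : k, V.valuation (f - algebraMap k K c) < 1) {A : Subalgebra k K}
    (hfg : A.FG) (hA : ∀ f ∈ A, f ∈ V) (hfrac : IsFrac A) {r D : ℕ}
    (htr : Algebra.trdeg k K = ((r + D : ℕ) : Cardinal)) {x : Fin r → K} {y : Fin D → K}
    (hz : IsPar V (locV V A) (Fin.append x y)) (σ : (Fin r → ℤ) ≃ₗ[ℤ] (Fin r → ℤ))
    (hσ : ∀ j, V.valuation (mx x (σ (Pi.single j 1))) < 1)
    (hσ' : ∀ i j, 0 ≤ σ.symm (Pi.single i 1) j) :
    IsPar V (locV V (Algebra.adjoin k ((A : Set K) ∪
      Set.range fun j => mx x (σ (Pi.single j 1)))))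
      (Fin.append (fun j => mx x (σ (Pi.single j 1))) y) := by
  classical
  set x' : Fin r → K := fun j => mx x (σ (Pi.single j 1)) with hx'
  set F : Set K := (A : Set K) ∪ Set.range x' with hFdef
  have hxne : ∀ i, x i ≠ 0 := fun i => by
    have := hz.ne (Fin.castAdd D i)
    rwa [Fin.append_left] at this
  have hyne : ∀ i, y i ≠ 0 := fun i => by
    have := hz.ne (Fin.natAdd r i)
    rwa [Fin.append_right] at this
  have hx'ne : ∀ j, x' j ≠ 0 := fun j => mx_ne hxne _
  have hAF : A ≤ Algebra.adjoin k F := fun a ha => Algebra.subset_adjoin (Or.inl ha)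
  have hFV : ∀ f ∈ Algebra.adjoin k F, f ∈ V := by
    intro f hf
    induction hf using Algebra.adjoin_induction with
    | mem f hf =>
      rcases hf with hf | ⟨j, rfl⟩
      · exact hA f hf
      · exact (V.valuation_le_one_iff _).1 (hσ j).le
    | algebraMap c => exact hk c
    | add f g _ _ hf hg => exact V.add_mem _ _ hf hg
    | mul f g _ _ hf hg => exact V.mul_mem _ _ hf hg
  have hFfg : (Algebra.adjoin k F).FG := by
    rw [hFdef, Algebra.adjoin_union, Algebra.adjoin_eq]
    exact hfg.sup (Subalgebra.fg_def.2 ⟨_, Set.finite_range _, rfl⟩)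
  have hFfrac : IsFrac (Algebra.adjoin k F) := by
    intro f
    obtain ⟨a, ha, b, hb, hb0, hab⟩ := hfrac f
    exact ⟨a, hAF ha, b, hAF hb, hb0, hab⟩
  have hloc : locV V A ≤ locV V (Algebra.adjoin k F) := locV_mono hAF
  have hx'R : ∀ j, x' j ∈ locV V (Algebra.adjoin k F) := fun j =>
    le_locV _ (Algebra.subset_adjoin (Or.inr ⟨j, rfl⟩))
  have hyR : ∀ j, y j ∈ locV V (Algebra.adjoin k F) := fun j => by
    have := hz.mem (Fin.natAdd r j)
    rw [Fin.append_right] at this
    exact hloc this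
  have hx'I : ∀ j, InI (locV V (Algebra.adjoin k F)) (Fin.append x' y) (x' j) := fun j => by
    have := InI.self (R := locV V (Algebra.adjoin k F)) (z := Fin.append x' y) (Fin.castAdd D j)
    rwa [Fin.append_left] at this
  have hyI : ∀ j, InI (locV V (Algebra.adjoin k F)) (Fin.append x' y) (y j) := fun j => by
    have := InI.self (R := locV V (Algebra.adjoin k F)) (z := Fin.append x' y) (Fin.natAdd r j)
    rwa [Fin.append_right] at this
  have hxI : ∀ i, InI (locV V (Algebra.adjoin k F)) (Fin.append x' y) (x i) := by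
    intro i
    have h1 : x i = mx x' (σ.symm (Pi.single i 1)) := by
      rw [hx', mx_linE hxne σ, LinearEquiv.apply_symm_apply, mx_single, zpow_one]
    rw [h1]
    refine InI.mx hx'ne hx'R hx'I (hσ' i) fun h => ?_
    have h2 : (Pi.single i 1 : Fin r → ℤ) = 0 := by
      rw [← σ.apply_symm_apply (Pi.single i 1), h, map_zero]
    have h3 := congrFun h2 i
    rw [Pi.single_eq_same] at h3
    exact one_ne_zero h3
  have hzI : ∀ i, InI (locV V (Algebra.adjoin k F)) (Fin.append x' y) (Fin.append x y i) := by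
    intro i
    refine Fin.addCases (fun i => ?_) (fun i => ?_) i
    · rw [Fin.append_left]; exact hxI i
    · rw [Fin.append_right]; exact hyI i
  have hmem : ∀ i, Fin.append x' y i ∈ locV V (Algebra.adjoin k F) := by
    intro i
    refine Fin.addCases (fun i => ?_) (fun i => ?_) i
    · rw [Fin.append_left]; exact hx'R i
    · rw [Fin.append_right]; exact hyR i
  have hne : ∀ i, Fin.append x' y i ≠ 0 := by
    intro i
    refine Fin.addCases (fun i => ?_) (fun i => ?_) i
    · rw [Fin.append_left]; exact hx'ne i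
    · rw [Fin.append_right]; exact hyne i
  have hpos : ∀ i, V.valuation (Fin.append x' y i) < 1 := by
    intro i
    refine Fin.addCases (fun i => ?_) (fun i => ?_) i
    · rw [Fin.append_left]; exact hσ i
    · rw [Fin.append_right]
      have := hz.pos (Fin.natAdd r i)
      rwa [Fin.append_right] at this
  refine isPar_of_gen hk hres _ hFfg hFV hFfrac htr hmem hne hpos ?_
  refine gen_of_adjoin hk hFV hmem hpos ?_
  rintro f (hf | ⟨j, rfl⟩)
  · obtain ⟨c, hc⟩ := hres f (hA f hf)
    obtain ⟨a, ha, hfa⟩ := hz.gen (f - algebraMap k K c)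
      (le_locV _ (A.sub_mem hf (A.algebraMap_mem c))) hc
    obtain ⟨b, hb, hfb⟩ : InI (locV V (Algebra.adjoin k F)) (Fin.append x' y)
        (f - algebraMap k K c) := by
      rw [hfa]
      exact InI.sum _ fun i _ => InI.mul (hloc (ha i)) (hzI i)
    exact ⟨c, b, hb, by rw [← hfb]; ring⟩
  · obtain ⟨b, hb, hfb⟩ := hx'I j
    exact ⟨0, b, hb, by rw [map_zero, zero_add, ← hfb]⟩

end Pool.Agent.ALL68
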