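import Pool.Agent.Lib.ALL_h68.Lattice
import Pool.Agent.Lib.ALL_h68.Change
import Pool.Agent.Lib.ALL_h25.Coarse
import Pool.Agent.Lib.LU2_h15z.Exit

/-!
# PROJECT ALL: the exit, for a real coarsening of a zero-dimensional valuation (helper68)

`lurAt_of_mono`: a regular model at the centre of a zero-dimensional `V' ≤ V` in which the elements
of `T` are monomials in parameters with independent values gives `LUrAt V A T`.
-/

set_option autoImplicit false

namespace Pool.Agent.ALL68

open Pool.Agent.LU2 Pool.Agent.TAO Pool.Agent.LU2G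
open Pool.Agent.H15JM (RVal)

universe u w

/-! ### valuation rings and valuations -/

section RelO

variable {K : Type u} [Field K] {𝕂 : Type w} [Field 𝕂] [LinearOrder 𝕂] [IsStrictOrderedRing 𝕂]
  {V : ValuationSubring K} {v : OVal 𝕂 K}

/-- `V` is the valuation ring of `v`. -/
def RelO (V : ValuationSubring K) (v : OVal 𝕂 K) : Prop := ∀ f : K, f ≠ 0 → (f ∈ V ↔ 0 ≤ v f)

theorem RelO.le_one_iff (h : RelO V v) {f : K} (hf : f ≠ 0) :
    V.valuation f ≤ 1 ↔ 0 ≤ v f := by
  rw [V.valuation_le_one_iff, h f hf]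

theorem RelO.one_le_iff (h : RelO V v) {f : K} (hf : f ≠ 0) :
    1 ≤ V.valuation f ↔ v f ≤ 0 := by
  have h1 := h.le_one_iff (inv_ne_zero hf)
  rw [v.map_inv hf, map_inv₀, Left.nonneg_neg_iff] at h1
  rw [← h1, inv_le_one₀ (zero_lt_iff.2 ((Valuation.ne_zero_iff _).2 hf))]

theorem RelO.lt_one_iff (h : RelO V v) {f : K} (hf : f ≠ 0) :
    V.valuation f < 1 ↔ 0 < v f := by
  rw [← not_le, h.one_le_iff hf, not_le]

theorem RelO.one_lt_iff (h : RelO V v) {f : K} (hf : f ≠ 0) :
    1 < V.valuation f ↔ v f < 0 := by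
  rw [← not_le, h.le_one_iff hf, not_le]

theorem RelO.eq_one_iff (h : RelO V v) {f : K} (hf : f ≠ 0) :
    V.valuation f = 1 ↔ v f = 0 := by
  rw [le_antisymm_iff, h.le_one_iff hf, h.one_le_iff hf, and_comm, ← le_antisymm_iff]

end RelO

section Exit

variable {k K : Type u} [Field k] [Field K] [Algebra k K] {𝕂 : Type w} [Field 𝕂] [LinearOrder 𝕂]
  [IsStrictOrderedRing 𝕂] {V' V : ValuationSubring K}

omit [Algebra k K] in
theorem val_mx (V : ValuationSubring K) {r : ℕ} (x : Fin r → K) (l : Fin r → ℤ) :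
    V.valuation (mx x l) = ∏ i, V.valuation (x i) ^ l i := by
  unfold mx
  rw [map_prod]
  exact Finset.prod_congr rfl fun i _ => map_zpow₀ _ _ _

/-- Monomials in parameters are strong monomials. -/
theorem smono_of {R : Subalgebra k K} (hinv : ∀ f ∈ R, V.valuation f = 1 → f⁻¹ ∈ R) {r m : ℕ}
    {x' : Fin r → K} (hx' : ∀ j, x' j ≠ 0) (J : Finset (Fin r)) (hxR : ∀ j, x' j ∈ R)
    (hxJ : ∀ j, j ∉ J → V.valuation (x' j) = 1) {w : Fin m → K} {f : J → Fin m}
    (hf : Function.Injective f) (hw : ∀ j : J, w (f j) = x' j) {l : Fin r → ℤ} {u t : K}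
    (hu : u ∈ R)
    (hu1 : V.valuation u = 1) (ht : t = mx x' l * u)
    (h1 : V.valuation t < 1 → ∀ j ∈ J, 0 < l j) (h2 : 1 < V.valuation t → ∀ j ∈ J, l j < 0)
    (h3 : V.valuation t = 1 → ∀ j ∈ J, l j = 0) : SMono V R w (Finset.univ.image f) t := by
  classical
  let e : Fin m → ℤ := fun i => ∑ j ∈ Finset.univ.filter fun j => f j = i, l j
  have he : ∀ j, e (f j) = l j := by
    intro j
    change ∑ j' ∈ Finset.univ.filter (fun j' => f j' = f j), l j' = l j
    have : Finset.univ.filter (fun j' => f j' = f j) = {j} := by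
      ext j'
      rw [Finset.mem_filter, Finset.mem_singleton]
      constructor
      · rintro ⟨h, h'⟩
        exact hf h'
      · rintro rfl
        exact ⟨Finset.mem_univ _, rfl⟩
    rw [this, Finset.sum_singleton]
  have he0 : ∀ i, i ∉ Finset.univ.image f → e i = 0 := by
    intro i hi
    change ∑ j ∈ Finset.univ.filter (fun j => f j = i), l j = 0
    rw [Finset.filter_eq_empty_iff.2, Finset.sum_empty]
    rintro j - rfl
    exact hi (Finset.mem_image_of_mem _ (Finset.mem_univ _))
  have hprod : ∏ i, w i ^ e i = ∏ j ∈ J, x' j ^ l j := by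
    have hz : ∀ i, ∏ j ∈ Finset.univ.filter (fun j => f j = i), x' j ^ l j = w i ^ e i := by
      intro i
      have h4 : ∀ s ⊆ Finset.univ.filter (fun j => f j = i),
          ∏ j ∈ s, x' j ^ l j = w i ^ (∑ j ∈ s, l j) := by
        intro s
        induction s using Finset.induction_on with
        | empty => intro _; simp
        | insert j s hj ih =>
          intro hs
          have hj' := Finset.mem_filter.1 (hs (Finset.mem_insert_self j s))
          have hwi : w i = x' j := by rw [← hj'.2]; exact hw j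
          rw [Finset.prod_insert hj, Finset.sum_insert hj,
            ih fun a ha => hs (Finset.mem_insert_of_mem ha), zpow_add₀ (by rw [hwi]; exact hx' j),
            hwi]
      exact h4 _ (Finset.Subset.refl _)
    rw [← Finset.prod_congr rfl fun i _ => hz i, ← Finset.prod_coe_sort J fun j => x' j ^ l j]
    exact Finset.prod_fiberwise Finset.univ f fun j => x' j ^ l j
  have hunit : ∀ s : Finset (Fin r), (∀ j ∈ s, j ∉ J) →
      (∏ j ∈ s, x' j ^ l j) ∈ R ∧ V.valuation (∏ j ∈ s, x' j ^ l j) = 1 := by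
    intro s hs
    constructor
    · refine R.prod_mem fun j hj => ?_
      rcases Int.eq_nat_or_neg (l j) with ⟨n, hn | hn⟩
      · rw [hn, zpow_natCast]
        exact R.pow_mem (hxR j) n
      · rw [hn, zpow_neg, zpow_natCast, ← inv_pow]
        exact R.pow_mem (hinv _ (hxR j) (hxJ j (hs j hj))) n
    · rw [map_prod]
      refine Finset.prod_eq_one fun j hj => ?_
      rw [map_zpow₀, hxJ j (hs j hj), one_zpow]
  obtain ⟨hU, hU1⟩ := hunit (Finset.univ \ J) (fun j hj => (Finset.mem_sdiff.1 hj).2)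
  refine ⟨e, (∏ j ∈ Finset.univ \ J, x' j ^ l j) * u, R.mul_mem hU hu, ?_, ?_, he0, ?_, ?_, ?_⟩
  · rw [map_mul, hU1, hu1, one_mul]
  · rw [hprod, ht, mx, ← Finset.prod_sdiff (Finset.subset_univ J)]
    ring
  · intro h i hi
    obtain ⟨j, -, rfl⟩ := Finset.mem_image.1 hi
    rw [he j]
    exact h1 h j j.2
  · intro h i hi
    obtain ⟨j, -, rfl⟩ := Finset.mem_image.1 hi
    rw [he j]
    exact h2 h j j.2
  · intro h i
    by_cases hi : i ∈ Finset.univ.image f
    · obtain ⟨j, -, rfl⟩ := Finset.mem_image.1 hi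
      rw [he j]
      exact h3 h j j.2
    · exact he0 i hi

/-- The exit. -/
theorem lurAt_of_mono (hle : V' ≤ V) (hR1 : IsR1 V) (hk : ∀ c : k, algebraMap k K c ∈ V')
    (hres : ∀ f ∈ V', ∃ c : k, V'.valuation (f - algebraMap k K c) < 1)
    {v : OVal 𝕂 K} (hv : RelO V' v) {A : Subalgebra k K}
    (hfg : A.FG) (hA : ∀ f ∈ A, f ∈ V') (hfrac : IsFrac A) {r D : ℕ}
    (htr : Algebra.trdeg k K = ((r + D : ℕ) : Cardinal)) {x : Fin r → K} {y : Fin D → K}
    (hz : IsPar V' (locV V' A) (Fin.append x y)) (hind : LinearIndependent ℚ fun i => v (x i))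
    (hxA : ∀ i, x i ∈ A) (T : Finset K)
    (hT : ∀ t ∈ T, ∃ l : Fin r → ℤ, ∃ u ∈ locV V' A, V'.valuation u = 1 ∧ t = mx x l * u) :
    LUrAt V A T := by
  classical
  have hxne : ∀ i, x i ≠ 0 := fun i => by
    have := hz.ne (Fin.castAdd D i)
    rwa [Fin.append_left] at this
  obtain ⟨w, hw, -⟩ := hR1.exists_real
  have hwRel : Rel V w := hw
  have hind' : LinearIndependent ℤ fun i => v (x i) :=
    (LinearIndependent.iff_fractionRing ℤ ℚ).2 hind
  let L : (Fin r → ℤ) →ₗ[ℤ] 𝕂 := Fintype.linearCombination ℤ fun i => v (x i)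
  let W : (Fin r → ℤ) →ₗ[ℤ] ℝ := Fintype.linearCombination ℤ fun i => w (x i)
  have hL : ∀ l, L l = v (mx x l) := by
    intro l
    rw [v_mx hxne]
    change ∑ i, l i • v (x i) = _
    exact Finset.sum_congr rfl fun i _ => by rw [zsmul_eq_mul]
  have hW : ∀ l, W l = w (mx x l) := by
    intro l
    change ∑ i, l i • w (x i) = _
    unfold mx
    rw [w.map_prod _ _ fun i _ => zpow_ne_zero _ (hxne i)]
    exact Finset.sum_congr rfl fun i _ => by rw [w.map_zpow (hxne i), zsmul_eq_mul]
  have hLinj : Function.Injective L := hind'.fintypeLinearCombination_injective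
  have hLW : ∀ l, 0 < L l → 0 ≤ W l := by
    intro l hl
    rw [hL, ← hv.lt_one_iff (mx_ne hxne l)] at hl
    rw [hW, ← hwRel.le_one_iff (mx_ne hxne l)]
    exact val_le_one_of_le hle hl.le
  choose! lt ut hut hut1 htl using hT
  -- the exponents
  let N₀ : Finset (Fin r → ℤ) := insert (fun _ => 1) ((Finset.univ.image fun i =>
    (Pi.single i 1 : Fin r → ℤ)) ∪ (T.image lt ∪ T.image fun t => -lt t))
  obtain ⟨σ, J, hσ1, hσJ, hσJ', hN1, hN2, hN3⟩ := exists_adapted L hLinj W hLW
    (N₀.filter fun l => 0 < L l) (fun l hl => (Finset.mem_filter.1 hl).2)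
  set x' : Fin r → K := fun j => mx x (σ (Pi.single j 1)) with hx'
  have hx'ne : ∀ j, x' j ≠ 0 := fun j => mx_ne hxne _
  have hx'lt : ∀ j, V'.valuation (x' j) < 1 := by
    intro j
    rw [hv.lt_one_iff (hx'ne j)]
    have := hσ1 j
    rwa [hL] at this
  have hLe : ∀ i, 0 < L (Pi.single i 1) := by
    intro i
    rw [hL, mx_single, zpow_one, ← hv.lt_one_iff (hxne i)]
    have := hz.pos (Fin.castAdd D i)
    rwa [Fin.append_left] at this
  have hσ' : ∀ i j, 0 ≤ σ.symm (Pi.single i 1) j := by
    intro i j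
    refine hN1 _ (Finset.mem_filter.2 ⟨?_, hLe i⟩) j
    exact Finset.mem_insert_of_mem (Finset.mem_union_left _
      (Finset.mem_image_of_mem _ (Finset.mem_univ i)))
  have hpar := isPar_change hk hres hfg hA hfrac htr hz σ hx'lt hσ'
  set A' : Subalgebra k K := Algebra.adjoin k ((A : Set K) ∪ Set.range x') with hA'
  have hAA' : A ≤ A' := fun a ha => Algebra.subset_adjoin (Or.inl ha)
  have hA'V' : ∀ f ∈ A', f ∈ V' := by
    intro f hf
    induction hf using Algebra.adjoin_induction with
    | mem f hf =>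
      rcases hf with hf | ⟨j, rfl⟩
      · exact hA f hf
      · exact (V'.valuation_le_one_iff _).1 (hx'lt j).le
    | algebraMap c => exact hk c
    | add f g _ _ hf hg => exact V'.add_mem _ _ hf hg
    | mul f g _ _ hf hg => exact V'.mul_mem _ _ hf hg
  have hA'fg : A'.FG := by
    rw [hA', Algebra.adjoin_union, Algebra.adjoin_eq]
    exact hfg.sup (Subalgebra.fg_def.2 ⟨_, Set.finite_range _, rfl⟩)
  have hA'V : ∀ f ∈ A', f ∈ V := fun f hf => hle (hA'V' f hf)
  -- the denominator
  obtain ⟨n, hn1, hn⟩ : ∃ n : ℕ, 0 < n ∧ ∀ j i, -(n : ℤ) ≤ σ (Pi.single j 1) i := by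
    refine ⟨1 + ∑ j, ∑ i, (σ (Pi.single j 1) i).natAbs, by omega, fun j i => ?_⟩
    have h1 : (σ (Pi.single j 1) i).natAbs ≤ ∑ i, (σ (Pi.single j 1) i).natAbs :=
      Finset.single_le_sum (f := fun i => (σ (Pi.single j 1) i).natAbs)
        (fun _ _ => Nat.zero_le _) (Finset.mem_univ i)
    have h2 : ∑ i, (σ (Pi.single j 1) i).natAbs ≤ ∑ j, ∑ i, (σ (Pi.single j 1) i).natAbs :=
      Finset.single_le_sum (f := fun j => ∑ i, (σ (Pi.single j 1) i).natAbs)
        (fun _ _ => Nat.zero_le _) (Finset.mem_univ j)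
    omega
  set g : K := mx x fun _ => (n : ℤ) with hg
  have hg0 : g ≠ 0 := mx_ne hxne _
  have hch : IsChart V A A' g := by
    refine ⟨mx_mem hxA fun _ => Int.natCast_nonneg n, hg0,
      Finset.univ.image fun j => x' j * g, ?_, ?_⟩
    · intro y hy
      obtain ⟨j, -, rfl⟩ := Finset.mem_image.1 hy
      constructor
      · rw [hx', hg, ← mx_add hxne]
        refine mx_mem hxA fun i => ?_
        rw [Pi.add_apply]
        have := hn j i
        omega
      · rw [map_mul]
        refine mul_le_of_le_one_left zero_le ?_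
        exact val_le_one_of_le hle (hx'lt j).le
    · rw [hA']
      congr 2
      ext y
      simp only [Finset.coe_image, Finset.coe_univ, Set.image_univ, Set.mem_range, Set.mem_image,
        exists_exists_eq_and]
      refine exists_congr fun j => ?_
      rw [mul_div_cancel_right₀ _ hg0]
  -- the parameters at the centre of `V`
  obtain ⟨m, z, f, hf, hzf, hzpar⟩ := ALLF.isPar_coarse' hle A' hA'fg hA'V' hres hpar
    (J.map (Fin.castAddEmb D)) (by
      intro i hi
      obtain ⟨j, hj, rfl⟩ := Finset.mem_map.1 hi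
      change V.valuation (Fin.append x' y (Fin.castAdd D j)) < 1
      rw [Fin.append_left, hwRel.lt_one_iff (hx'ne j)]
      have := hσJ j hj
      rwa [hW] at this)
  let f' : J → Fin m := fun j => f ⟨Fin.castAdd D j, Finset.mem_map_of_mem (Fin.castAddEmb D) j.2⟩
  have hf' : Function.Injective f' := by
    intro i j hij
    have h1 := congrArg Subtype.val (hf hij)
    exact Subtype.ext (Fin.castAdd_injective _ _ h1)
  have hzf' : ∀ j : J, z (f' j) = x' j := by
    intro j
    have h1 := hzf ⟨Fin.castAdd D j, Finset.mem_map_of_mem (Fin.castAddEmb D) j.2⟩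
    change z (f' j) = Fin.append x' y (Fin.castAdd D j) at h1
    rwa [Fin.append_left] at h1
  have hx'R : ∀ j, x' j ∈ locV V A' := fun j =>
    le_locV _ (Algebra.subset_adjoin (Or.inr ⟨j, rfl⟩))
  have hxJ : ∀ j, j ∉ J → V.valuation (x' j) = 1 := by
    intro j hj
    rw [hwRel.eq_one_iff (hx'ne j)]
    have := hσJ' j hj
    rwa [hW] at this
  have hback : ∀ l, mx x' (σ.symm l) = mx x l := by
    intro l
    rw [hx', mx_linE hxne σ, LinearEquiv.apply_symm_apply]
  -- strong monomials
  have hSM : ∀ (t : K) (l : Fin r → ℤ) (u : K), u ∈ locV V' A → V'.valuation u = 1 →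
      t = mx x l * u → (0 < W l → ∀ j ∈ J, 0 < σ.symm l j) →
      (W l < 0 → ∀ j ∈ J, σ.symm l j < 0) → SMono V (locV V A') z (Finset.univ.image f') t := by
    intro t l u hu hu1 ht h1 h2
    have hu' : u ∈ locV V A' := by
      obtain ⟨a, ha, b, hb, hvb, rfl⟩ := hu
      exact ⟨a, hAA' ha, b, hAA' hb, val_eq_one_of_le hle hvb, rfl⟩
    have hu1' : V.valuation u = 1 := val_eq_one_of_le hle hu1
    have hu0 : u ≠ 0 := by
      rintro rfl
      rw [map_zero] at hu1
      exact zero_ne_one hu1
    have hvt : V.valuation t = V.valuation (mx x l) := by rw [ht, map_mul, hu1', mul_one]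
    refine smono_of (fun f hf h1 => locV_inv hf h1) hx'ne J hx'R hxJ hf' hzf' hu' hu1'
      (by rw [hback]; exact ht) ?_ ?_ ?_
    · intro h
      rw [hvt, hwRel.lt_one_iff (mx_ne hxne l), ← hW] at h
      exact h1 h
    · intro h
      have h3 : W l < 0 := by
        rw [hvt] at h
        rw [hW]
        by_contra h4
        exact absurd ((hwRel.le_one_iff (mx_ne hxne l)).2 (not_lt.1 h4)) (not_le.2 h)
      exact h2 h3
    · intro h
      rw [hvt, hwRel.eq_one_iff (mx_ne hxne l), ← hW] at h
      exact hN3 l h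
  have hsgn : ∀ l, l ∈ N₀ → -l ∈ N₀ → (0 < W l → ∀ j ∈ J, 0 < σ.symm l j) ∧
      (W l < 0 → ∀ j ∈ J, σ.symm l j < 0) := by
    intro l hl hl'
    have hz' : L l = 0 → l = 0 := fun h => hLinj (h.trans (map_zero L).symm)
    constructor
    · intro h
      have h3 : 0 < L l := by
        rcases lt_trichotomy (L l) 0 with h4 | h4 | h4
        · have h5 := hLW (-l) (by rw [map_neg]; exact neg_pos.2 h4)
          rw [map_neg] at h5
          linarith
        · rw [hz' h4, map_zero] at h
          exact absurd h (lt_irrefl _)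
        · exact h4
      exact hN2 l (Finset.mem_filter.2 ⟨hl, h3⟩) h
    · intro h j hj
      have h3 : 0 < L (-l) := by
        rcases lt_trichotomy (L l) 0 with h4 | h4 | h4
        · rw [map_neg]; exact neg_pos.2 h4
        · rw [hz' h4, map_zero] at h
          exact absurd h (lt_irrefl _)
        · have h5 := hLW l h4
          linarith
      have h4 := hN2 (-l) (Finset.mem_filter.2 ⟨hl', h3⟩) (by rw [map_neg]; linarith) j hj
      rw [map_neg] at h4
      have h5 : (-σ.symm l) j = -(σ.symm l j) := rfl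
      rw [h5] at h4
      omega
  refine ⟨A', g, hch, m, z, Finset.univ.image f', hzpar, ?_, fun t ht => ?_⟩
  · -- the denominator
    have hgn : (fun _ => (n : ℤ) : Fin r → ℤ) = (n : ℤ) • (fun _ => 1 : Fin r → ℤ) := by
      funext i
      simp
    have h1L : 0 ≤ L (fun _ => 1) := by
      have h1 : (fun _ => 1 : Fin r → ℤ) = ∑ i, Pi.single i 1 := by
        ext i
        simp [Finset.sum_apply, Pi.single_apply]
      rw [h1, map_sum]
      exact Finset.sum_nonneg fun i _ => (hLe i).le
    have hn0 : (0 : ℤ) < n := by exact_mod_cast hn1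
    refine hSM g (fun _ => (n : ℤ)) 1 (Subalgebra.one_mem _) (map_one _)
      (by rw [mul_one]) ?_ ?_
    · intro h j hj
      rw [hgn, map_smul] at h ⊢
      have h2 : 0 < W (fun _ => 1) := by
        rw [zsmul_eq_mul] at h
        exact pos_of_mul_pos_right h (by positivity)
      have h3 : 0 < L (fun _ => 1) := by
        rcases h1L.eq_or_lt with h4 | h4
        · have h5 : (fun _ => 1 : Fin r → ℤ) = 0 := hLinj (h4.symm.trans (map_zero L).symm)
          rw [h5, map_zero] at h2
          exact absurd h2 (lt_irrefl _)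
        · exact h4
      have h4 := hN2 _ (Finset.mem_filter.2 ⟨Finset.mem_insert_self _ _, h3⟩) h2 j hj
      rw [Pi.smul_apply, smul_eq_mul]
      exact mul_pos hn0 h4
    · intro h
      exfalso
      rw [hgn, map_smul] at h
      have h2 : 0 ≤ W (fun _ => 1) := by
        rcases h1L.eq_or_lt with h4 | h4
        · have h5 : (fun _ => 1 : Fin r → ℤ) = 0 := hLinj (h4.symm.trans (map_zero L).symm)
          rw [h5, map_zero]
        · exact hLW _ h4
      rw [zsmul_eq_mul] at h
      have h3 : (0 : ℝ) ≤ ((n : ℤ) : ℝ) := by positivity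
      nlinarith [mul_nonneg h3 h2]
  · have h1 : lt t ∈ N₀ := Finset.mem_insert_of_mem (Finset.mem_union_right _
      (Finset.mem_union_left _ (Finset.mem_image_of_mem _ ht)))
    have h2 : -lt t ∈ N₀ := Finset.mem_insert_of_mem (Finset.mem_union_right _
      (Finset.mem_union_right _ (Finset.mem_image_of_mem (fun t => -lt t) ht)))
    obtain ⟨h3, h4⟩ := hsgn _ h1 h2
    exact hSM t (lt t) (ut t) (hut t ht) (hut1 t ht) (htl t ht) h3 h4

end Exit

end Pool.Agent.ALL68
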