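import Pool.Agent.Lib.ALL_h42.Perron
import Pool.Agent.Lib.LU1_h15.Perron

/-!
# PROJECT ALL: bases of the group of exponents adapted to a coarsening (helper68)

`exists_adapted`: `L` is the value of the monomials for a valuation `v` of any rank, `W` their
value for a real coarsening `w` of `v`. Finitely many monomials of positive `v`-value have
non-negative exponents in a basis adapted to `ker W`; and all the exponents outside `ker W` of those
of positive `w`-value are positive.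
-/

set_option autoImplicit false

namespace Pool.Agent.ALL68

open Module

theorem exists_real_basis {r : ℕ} (W : (Fin r → ℤ) →ₗ[ℤ] ℝ) (N : Finset (Fin r → ℤ))
    (hN : ∀ l ∈ N, 0 < W l) :
    ∃ (r₁ : ℕ) (s : Fin r₁ → (Fin r → ℤ)), (∀ i, 0 < W (s i)) ∧
      LinearIndependent ℤ (fun i => W (s i)) ∧
      (∀ l, ∃ a : Fin r₁ → ℤ, W l = ∑ i, a i • W (s i)) ∧
      ∀ l ∈ N, ∃ a : Fin r₁ → ℤ, (∀ i, 0 < a i) ∧ W l = ∑ i, a i • W (s i) := by
  classical
  have hfin : Module.Finite ℤ (LinearMap.range W) := inferInstance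
  have hfree : Module.Free ℤ (LinearMap.range W) := Module.free_of_finite_type_torsion_free'
  set b := Module.finBasis ℤ (LinearMap.range W) with hb
  obtain ⟨r₁, hr₁⟩ : ∃ r₁, r₁ = finrank ℤ (LinearMap.range W) := ⟨_, rfl⟩
  rw [← hr₁] at b
  rcases Nat.eq_zero_or_pos r₁ with h0 | h0
  · subst h0
    have hW : ∀ l, W l = 0 := by
      intro l
      have h1 := b.sum_repr ⟨W l, l, rfl⟩
      rw [Finset.univ_eq_empty, Finset.sum_empty] at h1
      exact (congrArg Subtype.val h1).symm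
    refine ⟨0, fun i => i.elim0, fun i => i.elim0, linearIndependent_empty_type, fun l => ?_,
      fun l hl => ?_⟩
    · exact ⟨fun i => i.elim0, by rw [hW l]; simp⟩
    · have := hN l hl
      rw [hW l] at this
      exact absurd this (lt_irrefl _)
  let Γ : AddSubgroup ℝ := (LinearMap.range W).toAddSubgroup
  have hΓ : Γ.FG := by
    rw [← AddGroup.fg_iff_addSubgroup_fg]
    exact Module.Finite.iff_addGroup_fg.1 hfin
  have hind : LinearIndependent ℤ fun i => (b i : ℝ) := by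
    have h1 := b.linearIndependent.map' (Submodule.subtype _) (Submodule.ker_subtype _)
    exact h1
  obtain ⟨u, hu⟩ := LU1.perron h0 Γ hΓ ⟨fun i => (b i : ℝ),
    (LinearIndependent.iff_fractionRing ℤ ℚ).1 hind, fun i => (b i).2, fun γ hγ => by
      have h1 := congrArg Subtype.val (b.sum_repr ⟨γ, hγ⟩)
      rw [AddSubmonoidClass.coe_finset_sum] at h1
      have h2 : γ = ∑ i, ((b.repr ⟨γ, hγ⟩ i : ℤ) : ℚ) • (b i : ℝ) := by
        refine h1.symm.trans (Finset.sum_congr rfl fun i _ => ?_)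
        rw [Rat.smul_def]
        simp
      rw [h2]
      exact Submodule.sum_mem _ fun i _ => Submodule.smul_mem _ _ (Submodule.subset_span ⟨i, rfl⟩)⟩
    (N.image W) (by
      intro γ hγ
      obtain ⟨l, hl, rfl⟩ := Finset.mem_image.1 hγ
      exact ⟨⟨l, rfl⟩, hN l hl⟩)
  choose s hs using fun i => hu.mem i
  have hs' : (fun i => W (s i)) = u := funext hs
  refine ⟨r₁, s, fun i => by rw [hs]; exact hu.pos i, ?_, fun l => ?_, fun l hl => ?_⟩
  · rw [hs']
    exact (LinearIndependent.iff_fractionRing ℤ ℚ).2 hu.ind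
  · obtain ⟨n, hn⟩ := hu.gen (W l) ⟨l, rfl⟩
    refine ⟨n, ?_⟩
    rw [hn]
    exact Finset.sum_congr rfl fun i _ => by rw [hs, zsmul_eq_mul]
  · obtain ⟨n, hn, hn'⟩ := hu.cone (W l) (Finset.mem_coe.2 (Finset.mem_image_of_mem W hl))
    refine ⟨fun i => n i, fun i => Int.natCast_pos.2 (hn i), ?_⟩
    rw [hn']
    exact Finset.sum_congr rfl fun i _ => by rw [hs, zsmul_eq_mul]; simp

theorem exists_ker_basis {𝕂 : Type*} [Field 𝕂] [LinearOrder 𝕂] [IsStrictOrderedRing 𝕂] {r : ℕ}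
    (L : (Fin r → ℤ) →ₗ[ℤ] 𝕂) (hL : Function.Injective L) (W : (Fin r → ℤ) →ₗ[ℤ] ℝ)
    (N : Finset (Fin r → ℤ)) (hN : ∀ l ∈ N, W l = 0 ∧ 0 < L l) :
    ∃ (r₂ : ℕ) (t : Fin r₂ → (Fin r → ℤ)), (∀ j, W (t j) = 0) ∧ (∀ j, 0 < L (t j)) ∧
      LinearIndependent ℤ t ∧ (∀ l, W l = 0 → ∃ c : Fin r₂ → ℤ, l = ∑ j, c j • t j) ∧
      ∀ l ∈ N, ∃ c : Fin r₂ → ℤ, (∀ j, 0 ≤ c j) ∧ l = ∑ j, c j • t j := by
  classical
  let Λ : Submodule ℤ 𝕂 := (LinearMap.ker W).map L
  have hfin : Module.Finite ℤ Λ := inferInstance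
  have hfree : Module.Free ℤ Λ := Module.free_of_finite_type_torsion_free'
  let φ : (Fin (finrank ℤ Λ) → ℤ) ≃ₗ[ℤ] Λ := (Module.finBasis ℤ Λ).equivFun.symm
  have hNΛ : ∀ l ∈ N, L l ∈ Λ := fun l hl => ⟨l, (hN l hl).1, rfl⟩
  let S : Finset Λ := N.attach.image fun l : {l // l ∈ N} => (⟨L l.1, hNΛ l.1 l.2⟩ : Λ)
  obtain ⟨φ', hp, hn⟩ := LUA.perron φ S (by
    intro g hg
    obtain ⟨l, -, rfl⟩ := Finset.mem_image.1 hg
    exact (hN l.1 l.2).2)
  have ht : ∀ j, ∃ t : Fin r → ℤ, W t = 0 ∧ L t = φ' (Pi.single j 1) := by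
    intro j
    obtain ⟨t, ht, ht'⟩ := (φ' (Pi.single j 1)).2
    exact ⟨t, ht, ht'⟩
  choose t htW htL using ht
  have hexp : ∀ g : Λ, (g : 𝕂) = L (∑ j, (φ'.symm g) j • t j) := by
    intro g
    rw [map_sum]
    have h1 : φ'.symm g = ∑ j, (φ'.symm g) j • (Pi.single j 1 : Fin (finrank ℤ Λ) → ℤ) := by
      ext i
      simp [Finset.sum_apply, Pi.single_apply]
    have h2 : g = ∑ j, (φ'.symm g) j • φ' (Pi.single j 1) := by
      conv_lhs => rw [← φ'.apply_symm_apply g, h1]
      rw [map_sum]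
      exact Finset.sum_congr rfl fun j _ => by rw [map_smul]
    conv_lhs => rw [h2]
    rw [AddSubmonoidClass.coe_finset_sum]
    exact Finset.sum_congr rfl fun j _ => by rw [map_smul, htL]; rfl
  refine ⟨finrank ℤ Λ, t, htW, fun j => by rw [htL]; exact hp j, ?_, fun l hl => ?_,
    fun l hl => ?_⟩
  · rw [Fintype.linearIndependent_iff]
    intro c hc
    have h1 : φ' c = 0 := by
      apply Subtype.ext
      have h2 : c = ∑ j, c j • (Pi.single j 1 : Fin (finrank ℤ Λ) → ℤ) := by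
        ext i
        simp [Finset.sum_apply, Pi.single_apply]
      rw [h2, map_sum, AddSubmonoidClass.coe_finset_sum]
      have h3 : L (∑ j, c j • t j) = 0 := by rw [hc, map_zero]
      rw [map_sum] at h3
      refine Eq.trans (Finset.sum_congr rfl fun j _ => ?_) h3
      rw [map_smul, map_smul, htL]
      rfl
    have h4 : c = 0 := by
      have := congrArg φ'.symm h1
      rwa [LinearEquiv.symm_apply_apply, map_zero] at this
    exact fun j => congrFun h4 j
  · have hl' : L l ∈ Λ := ⟨l, hl, rfl⟩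
    exact ⟨φ'.symm ⟨L l, hl'⟩, hL (hexp ⟨L l, hl'⟩)⟩
  · exact ⟨φ'.symm ⟨L l, hNΛ l hl⟩, fun j => hn _ (Finset.mem_image.2
      ⟨⟨l, hl⟩, Finset.mem_attach _ _, rfl⟩) j, hL (hexp ⟨L l, hNΛ l hl⟩)⟩

/-- Adapted bases. -/
theorem exists_adapted {𝕂 : Type*} [Field 𝕂] [LinearOrder 𝕂] [IsStrictOrderedRing 𝕂] {r : ℕ}
    (L : (Fin r → ℤ) →ₗ[ℤ] 𝕂) (hL : Function.Injective L) (W : (Fin r → ℤ) →ₗ[ℤ] ℝ)
    (hLW : ∀ l, 0 < L l → 0 ≤ W l) (N : Finset (Fin r → ℤ)) (hN : ∀ l ∈ N, 0 < L l) :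
    ∃ (σ : (Fin r → ℤ) ≃ₗ[ℤ] (Fin r → ℤ)) (J : Finset (Fin r)),
      (∀ j, 0 < L (σ (Pi.single j 1))) ∧ (∀ j ∈ J, 0 < W (σ (Pi.single j 1))) ∧
      (∀ j, j ∉ J → W (σ (Pi.single j 1)) = 0) ∧ (∀ l ∈ N, ∀ j, 0 ≤ σ.symm l j) ∧
      (∀ l ∈ N, 0 < W l → ∀ j ∈ J, 0 < σ.symm l j) ∧
      ∀ l, W l = 0 → ∀ j ∈ J, σ.symm l j = 0 := by
  classical
  obtain ⟨r₁, s, hs0, hsi, hsg, hsN⟩ := exists_real_basis W (N.filter fun l => 0 < W l)
    (fun l hl => (Finset.mem_filter.1 hl).2)
  obtain ⟨r₂, t, htW, htL, hti, htg, htN⟩ := exists_ker_basis L hL W (N.filter fun l => W l = 0)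
    (fun l hl => ⟨(Finset.mem_filter.1 hl).2, hN l (Finset.mem_filter.1 hl).1⟩)
  -- the coordinates of all elements
  have hcoord : ∀ l, ∃ (a : Fin r₁ → ℤ) (c : Fin r₂ → ℤ), (l ∈ N → 0 < W l → ∀ i, 0 < a i) ∧
      (l ∈ N → W l = 0 → ∀ j, 0 ≤ c j) ∧ (W l = 0 → a = 0) ∧
      l = ∑ i, a i • s i + ∑ j, c j • t j := by
    intro l
    by_cases h0 : W l = 0
    · by_cases hl : l ∈ N
      · obtain ⟨c, hc, hcl⟩ := htN l (Finset.mem_filter.2 ⟨hl, h0⟩)
        refine ⟨0, c, fun _ h => absurd h0 h.ne', fun _ _ => hc, fun _ => rfl, ?_⟩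
        simpa using hcl
      · obtain ⟨c, hcl⟩ := htg l h0
        refine ⟨0, c, fun h => absurd h hl, fun h => absurd h hl, fun _ => rfl, ?_⟩
        simpa using hcl
    · by_cases hl : l ∈ N ∧ 0 < W l
      · obtain ⟨a, ha, hal⟩ := hsN l (Finset.mem_filter.2 hl)
        obtain ⟨c, hc⟩ := htg (l - ∑ i, a i • s i) (by
          rw [map_sub, hal, map_sum, sub_eq_zero]
          exact Finset.sum_congr rfl fun i _ => (map_smul W _ _).symm)
        exact ⟨a, c, fun _ _ => ha, fun _ h => absurd h h0, fun h => absurd h h0, by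
          rw [← hc]; abel⟩
      · obtain ⟨a, hal⟩ := hsg l
        obtain ⟨c, hc⟩ := htg (l - ∑ i, a i • s i) (by
          rw [map_sub, hal, map_sum, sub_eq_zero]
          exact Finset.sum_congr rfl fun i _ => (map_smul W _ _).symm)
        exact ⟨a, c, fun h h' => absurd ⟨h, h'⟩ hl, fun _ h => absurd h h0,
          fun h => absurd h h0, by rw [← hc]; abel⟩
  choose a c hapos hc0 ha0 hac using hcoord
  -- the shift
  obtain ⟨n, hn⟩ : ∃ n : ℕ, ∀ l ∈ N, ∀ j, -(n : ℤ) ≤ c l j := by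
    refine ⟨∑ l ∈ N, ∑ j, (c l j).natAbs, fun l hl j => ?_⟩
    have h1 : (c l j).natAbs ≤ ∑ j, (c l j).natAbs :=
      Finset.single_le_sum (f := fun j => (c l j).natAbs) (fun _ _ => Nat.zero_le _)
        (Finset.mem_univ j)
    have h2 : ∑ j, (c l j).natAbs ≤ ∑ l ∈ N, ∑ j, (c l j).natAbs :=
      Finset.single_le_sum (f := fun l => ∑ j, (c l j).natAbs) (fun _ _ => Nat.zero_le _) hl
    have h3 : ((c l j).natAbs : ℤ) ≤ ((∑ l ∈ N, ∑ j, (c l j).natAbs : ℕ) : ℤ) := by
      exact_mod_cast h1.trans h2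
    have h4 : -((c l j).natAbs : ℤ) ≤ c l j := by
      have := neg_abs_le (c l j)
      rwa [Int.natCast_natAbs]
    linarith
  let τ : Fin r → ℤ := ∑ j, t j
  have hτW : W τ = 0 := by
    rw [map_sum]
    exact Finset.sum_eq_zero fun j _ => htW j
  let f : Fin r₁ ⊕ Fin r₂ → (Fin r → ℤ) := Sum.elim (fun i => s i - (n : ℤ) • τ) t
  let F : (Fin r₁ ⊕ Fin r₂ → ℤ) →ₗ[ℤ] (Fin r → ℤ) := Fintype.linearCombination ℤ f
  have hF : ∀ e, F e = ∑ i, e (Sum.inl i) • (s i - (n : ℤ) • τ) + ∑ j, e (Sum.inr j) • t j := by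
    intro e
    change ∑ x, e x • f x = _
    rw [Fintype.sum_sum_type]
    rfl
  have hWF : ∀ e, W (F e) = ∑ i, e (Sum.inl i) • W (s i) := by
    intro e
    rw [hF, map_add, map_sum, map_sum]
    have h1 : ∀ j, W (e (Sum.inr j) • t j) = 0 := fun j => by rw [map_smul, htW, smul_zero]
    rw [Finset.sum_eq_zero fun j _ => h1 j, add_zero]
    refine Finset.sum_congr rfl fun i _ => ?_
    rw [map_smul, map_sub, map_smul, hτW, smul_zero, sub_zero]
  have hFinj : Function.Injective F := by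
    rw [← LinearMap.ker_eq_bot, LinearMap.ker_eq_bot']
    intro e he
    have h1 : ∀ i, e (Sum.inl i) = 0 := by
      have h2 := hWF e
      rw [he, map_zero] at h2
      rw [Fintype.linearIndependent_iff] at hsi
      exact hsi _ h2.symm
    have h2 : ∀ j, e (Sum.inr j) = 0 := by
      rw [hF] at he
      simp only [h1, zero_smul, Finset.sum_const_zero, zero_add] at he
      rw [Fintype.linearIndependent_iff] at hti
      exact hti _ he
    funext x
    rcases x with i | j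
    · exact h1 i
    · exact h2 j
  have hback : ∀ l, F (Sum.elim (a l) fun j => c l j + n * ∑ i, a l i) = l := by
    intro l
    rw [hF]
    simp only [Sum.elim_inl, Sum.elim_inr]
    conv_rhs => rw [hac l]
    have h1 : ∑ i, a l i • (s i - (n : ℤ) • τ) =
        ∑ i, a l i • s i - (n * ∑ i, a l i) • τ := by
      simp only [smul_sub, Finset.sum_sub_distrib]
      congr 1
      rw [Finset.mul_sum, Finset.sum_smul]
      refine Finset.sum_congr rfl fun i _ => ?_
      rw [smul_smul, mul_comm]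
    have h2 : ∑ j, (c l j + n * ∑ i, a l i) • t j =
        ∑ j, c l j • t j + (n * ∑ i, a l i) • τ := by
      simp only [add_smul, Finset.sum_add_distrib]
      congr 1
      rw [Finset.smul_sum]
    rw [h1, h2]
    abel
  have hFsurj : Function.Surjective F := fun l => ⟨_, hback l⟩
  let F' : (Fin r₁ ⊕ Fin r₂ → ℤ) ≃ₗ[ℤ] (Fin r → ℤ) := LinearEquiv.ofBijective F ⟨hFinj, hFsurj⟩
  have hF' : ∀ l, F'.symm l = Sum.elim (a l) fun j => c l j + n * ∑ i, a l i := by
    intro l
    rw [LinearEquiv.symm_apply_eq]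
    exact (hback l).symm
  have hcard : r₁ + r₂ = r := by
    have h1 := F'.finrank_eq
    rw [finrank_fintype_fun_eq_card, finrank_fintype_fun_eq_card] at h1
    simpa using h1
  let e : Fin r ≃ Fin r₁ ⊕ Fin r₂ := (finCongr hcard.symm).trans finSumFinEquiv.symm
  let ρ : (Fin r → ℤ) ≃ₗ[ℤ] (Fin r₁ ⊕ Fin r₂ → ℤ) := LinearEquiv.funCongrLeft ℤ ℤ e.symm
  have hρ : ∀ x, ρ x = fun i => x (e.symm i) := fun x => rfl
  have hρs : ∀ x, ρ.symm x = fun i => x (e i) := by
    intro x
    rw [LinearEquiv.symm_apply_eq, hρ]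
    funext i
    simp
  have hρ1 : ∀ j, ρ (Pi.single j 1) = Pi.single (e j) 1 := by
    intro j
    rw [hρ]
    funext i
    rw [Pi.single_apply, Pi.single_apply]
    simp only [Equiv.symm_apply_eq]
  have hF1 : ∀ x, F' (Pi.single x 1) = f x := by
    intro x
    change ∑ y, (Pi.single x 1 : Fin r₁ ⊕ Fin r₂ → ℤ) y • f y = f x
    rw [Finset.sum_eq_single x]
    · rw [Pi.single_eq_same, one_smul]
    · intro y _ hy
      rw [Pi.single_eq_of_ne hy, zero_smul]
    · intro h
      exact absurd (Finset.mem_univ x) h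
  have hfs : ∀ i, W (f (Sum.inl i)) = W (s i) := by
    intro i
    change W (s i - (n : ℤ) • τ) = _
    rw [map_sub, map_smul, hτW, smul_zero, sub_zero]
  have hpos : ∀ x, 0 < L (f x) := by
    rintro (i | j)
    · have h1 : 0 < W (f (Sum.inl i)) := by rw [hfs]; exact hs0 i
      rcases lt_trichotomy (L (f (Sum.inl i))) 0 with h | h | h
      · have h2 := hLW (-f (Sum.inl i)) (by rw [map_neg]; exact neg_pos.2 h)
        rw [map_neg] at h2
        linarith
      · have h2 : f (Sum.inl i) = 0 := hL (h.trans (map_zero L).symm)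
        rw [h2, map_zero] at h1
        exact absurd h1 (lt_irrefl _)
      · exact h
    · exact htL j
  have hco : ∀ l j, (ρ.trans F').symm l j =
      (Sum.elim (a l) (fun j => c l j + n * ∑ i, a l i) : Fin r₁ ⊕ Fin r₂ → ℤ) (e j) := by
    intro l j
    change ρ.symm (F'.symm l) j = _
    rw [hρs, hF']
  refine ⟨ρ.trans F', Finset.univ.filter fun j => ∃ i, e j = Sum.inl i, fun j => ?_,
    fun j hj => ?_, fun j hj => ?_, fun l hl j => ?_, fun l hl hW j hj => ?_, fun l hW j hj => ?_⟩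
  · rw [LinearEquiv.trans_apply, hρ1, hF1]
    exact hpos _
  · obtain ⟨i, hi⟩ := (Finset.mem_filter.1 hj).2
    rw [LinearEquiv.trans_apply, hρ1, hF1, hi, hfs]
    exact hs0 i
  · rw [LinearEquiv.trans_apply, hρ1, hF1]
    rcases hx : e j with i | i
    · exact absurd (Finset.mem_filter.2 ⟨Finset.mem_univ _, i, hx⟩) hj
    · exact htW i
  · rw [hco]
    rcases (hLW l (hN l hl)).eq_or_lt with h | h
    · rcases hx : e j with i | i
      · simp only [Sum.elim_inl]
        rw [ha0 l h.symm]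
        exact le_refl (0 : ℤ)
      · simp only [Sum.elim_inr]
        rw [ha0 l h.symm]
        simpa using hc0 l hl h.symm i
    · rcases hx : e j with i | i
      · exact (hapos l hl h i).le
      · simp only [Sum.elim_inr]
        have h1 := hn l hl i
        have hr1 : 0 < r₁ := by
          by_contra h0
          have h0' : r₁ = 0 := by omega
          subst h0'
          obtain ⟨a', ha'⟩ := hsg l
          rw [Finset.univ_eq_empty, Finset.sum_empty] at ha'
          rw [ha'] at h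
          exact lt_irrefl _ h
        have h2 : 1 ≤ ∑ i, a l i := by
          have h3 : a l ⟨0, hr1⟩ ≤ ∑ i, a l i :=
            Finset.single_le_sum (f := fun i => a l i) (fun i _ => (hapos l hl h i).le)
              (Finset.mem_univ _)
          have h4 := hapos l hl h ⟨0, hr1⟩
          omega
        have h3 : (n : ℤ) * 1 ≤ n * ∑ i, a l i := by
          exact mul_le_mul_of_nonneg_left h2 (Int.natCast_nonneg n)
        linarith
  · obtain ⟨i, hi⟩ := (Finset.mem_filter.1 hj).2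
    rw [hco, hi]
    exact hapos l hl hW i
  · obtain ⟨i, hi⟩ := (Finset.mem_filter.1 hj).2
    rw [hco, hi]
    simp only [Sum.elim_inl]
    rw [ha0 l hW]
    rfl

end Pool.Agent.ALL68
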