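import Pool.Agent.Lib.LU2_h15.Stage3B
import Pool.Agent.Lib.LU1_h15.Reg

/-!
# PROJECT ALL: regular local rings at zero-dimensional centres (helper68)
-/

set_option autoImplicit false

namespace Pool.Agent.ALL68

open Pool.Agent.LU2

universe u

variable {k K : Type u} [Field k] [Field K] [Algebra k K] {V : ValuationSubring K}

theorem algebraMap_val (hk : ∀ c : k, algebraMap k K c ∈ V) {c : k} (hc : c ≠ 0) :
    V.valuation (algebraMap k K c) = 1 := by
  refine le_antisymm ((V.valuation_le_one_iff _).2 (hk c)) ?_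
  have h1 := (V.valuation_le_one_iff _).2 (hk c⁻¹)
  rw [map_inv₀, map_inv₀] at h1
  have h0 : V.valuation (algebraMap k K c) ≠ 0 :=
    (Valuation.ne_zero_iff _).2 ((_root_.map_ne_zero _).2 hc)
  exact (inv_le_one₀ (zero_lt_iff.2 h0)).1 h1

/-- The dimension of the local ring of a model at the centre. -/
theorem dim_ge (hk : ∀ c : k, algebraMap k K c ∈ V)
    (hres : ∀ f ∈ V, ∃ c : k, V.valuation (f - algebraMap k K c) < 1) (A : Subalgebra k K)
    (hfg : A.FG) (hA : ∀ f ∈ A, f ∈ V) (hfrac : IsFrac A) {n : ℕ}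
    (htr : Algebra.trdeg k K = n) : (n : WithBot ℕ∞) ≤ ringKrullDim (locV V A) := by
  have hft : Algebra.FiniteType k A := (Subalgebra.fg_iff_finiteType A).1 hfg
  have hp := PI_prime V A hA
  have hmax : (PI V A hA).IsMaximal := by
    rw [Ideal.isMaximal_iff]
    refine ⟨fun h1 => ?_, fun J x hJ hx hxJ => ?_⟩
    · have h2 : V.valuation ((1 : A) : K) < 1 := h1
      simp at h2
    · obtain ⟨c, hc⟩ := hres x (hA x x.2)
      have hc0 : c ≠ 0 := by
        rintro rfl
        rw [map_zero, sub_zero] at hc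
        exact hx hc
      have h1 : x - algebraMap k A c ∈ J := hJ hc
      have h2 : algebraMap k A c ∈ J := by
        have := J.sub_mem hxJ h1
        rwa [sub_sub_cancel] at this
      have h3 := J.mul_mem_left (algebraMap k A c⁻¹) h2
      rwa [← map_mul, inv_mul_cancel₀ hc0, map_one] at h3
  let _ := (Subalgebra.inclusion (le_locV (V := V) A)).toAlgebra
  have hloc := isLocalization_locV V A _ hA (le_locV A) rfl
  have halg : Algebra.IsAlgebraic A K := by
    refine ⟨fun f => ?_⟩
    obtain ⟨a, ha, b, hb, hb0, rfl⟩ := hfrac f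
    have h1 : IsAlgebraic A a := isAlgebraic_algebraMap (⟨a, ha⟩ : A)
    have h2 : IsAlgebraic A b := isAlgebraic_algebraMap (⟨b, hb⟩ : A)
    rw [div_eq_mul_inv]
    exact h1.mul h2.inv
  have h1 := LU1.RegAux.le_height (A := A) n htr _ hmax
  rw [IsLocalization.AtPrime.ringKrullDim_eq_height (PI V A hA) (locV V A)]
  exact_mod_cast h1

/-- Generators of the maximal ideal. -/
theorem gen_of_adjoin (hk : ∀ c : k, algebraMap k K c ∈ V) {F : Set K}
    (hF : ∀ f ∈ Algebra.adjoin k F, f ∈ V) {n : ℕ} {z : Fin n → K}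
    (hz : ∀ i, z i ∈ locV V (Algebra.adjoin k F)) (hpos : ∀ i, V.valuation (z i) < 1)
    (hgen : ∀ f ∈ F, ∃ c : k, ∃ a : Fin n → K, (∀ i, a i ∈ locV V (Algebra.adjoin k F)) ∧
      f = algebraMap k K c + ∑ i, a i * z i) :
    ∀ f ∈ locV V (Algebra.adjoin k F), V.valuation f < 1 →
      ∃ a : Fin n → K, (∀ i, a i ∈ locV V (Algebra.adjoin k F)) ∧ f = ∑ i, a i * z i := by
  classical
  have hmem := locV_mem hF
  set R := locV V (Algebra.adjoin k F) with hR
  have key : ∀ f ∈ Algebra.adjoin k F, ∃ c : k, ∃ a : Fin n → K, (∀ i, a i ∈ R) ∧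
      f = algebraMap k K c + ∑ i, a i * z i := by
    intro f hf
    induction hf using Algebra.adjoin_induction with
    | mem f hf => exact hgen f hf
    | algebraMap c => exact ⟨c, 0, fun _ => R.zero_mem, by simp⟩
    | add f g _ _ hf hg =>
      obtain ⟨c, a, ha, rfl⟩ := hf
      obtain ⟨d, b, hb, rfl⟩ := hg
      refine ⟨c + d, fun i => a i + b i, fun i => R.add_mem (ha i) (hb i), ?_⟩
      rw [map_add]
      simp only [add_mul, Finset.sum_add_distrib]
      ring
    | mul f g hf' hg' hf hg =>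
      obtain ⟨c, a, ha, hfa⟩ := hf
      obtain ⟨d, b, hb, hgb⟩ := hg
      refine ⟨c * d, fun i => algebraMap k K c * b i + a i * g, fun i =>
        R.add_mem (R.mul_mem (R.algebraMap_mem c) (hb i)) (R.mul_mem (ha i) (le_locV _ hg')), ?_⟩
      rw [map_mul]
      simp only [add_mul, Finset.sum_add_distrib]
      have h1 : ∑ i, algebraMap k K c * b i * z i = algebraMap k K c * ∑ i, b i * z i := by
        rw [Finset.mul_sum]
        exact Finset.sum_congr rfl fun i _ => by ring
      have h2 : ∑ i, a i * g * z i = (∑ i, a i * z i) * g := by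
        rw [Finset.sum_mul]
        exact Finset.sum_congr rfl fun i _ => by ring
      rw [h1, h2]
      conv_lhs => rw [hfa]
      have h3 : (algebraMap k K c + ∑ i, a i * z i) * g =
          algebraMap k K c * g + (∑ i, a i * z i) * g := by ring
      rw [h3]
      conv_lhs => rw [show algebraMap k K c * g =
        algebraMap k K c * (algebraMap k K d + ∑ i, b i * z i) from by rw [← hgb]]
      ring
  have hsum : ∀ a : Fin n → K, (∀ i, a i ∈ R) → V.valuation (∑ i, a i * z i) < 1 := by
    intro a ha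
    have : ∀ s : Finset (Fin n), V.valuation (∑ i ∈ s, a i * z i) < 1 := by
      intro s
      induction s using Finset.induction_on with
      | empty => simp
      | insert i s hi ih =>
        rw [Finset.sum_insert hi]
        refine V.valuation.map_add_lt ?_ ih
        rw [map_mul, mul_comm]
        exact mul_lt_of_lt_of_le_one (hpos i) ((V.valuation_le_one_iff _).2 (hmem _ (ha i)))
    exact this _
  rintro f ⟨a, ha, b, hb, hvb, rfl⟩ hv
  have hva : V.valuation a < 1 := by rwa [map_div₀, hvb, div_one] at hv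
  obtain ⟨c, e, he, hae⟩ := key a ha
  have hc : c = 0 := by
    by_contra hc
    have h1 := algebraMap_val hk hc
    have h2 : algebraMap k K c = a - ∑ i, e i * z i := by rw [hae]; ring
    rw [h2] at h1
    have h3 := V.valuation.map_sub_lt hva (hsum e he)
    rw [h1] at h3
    exact lt_irrefl _ h3
  have hb1 : b⁻¹ ∈ R := locV_inv (le_locV _ hb) hvb
  refine ⟨fun i => e i * b⁻¹, fun i => R.mul_mem (he i) hb1, ?_⟩
  rw [hc, map_zero, zero_add] at hae
  rw [div_eq_mul_inv]
  conv_lhs => rw [hae]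
  rw [Finset.sum_mul]
  exact Finset.sum_congr rfl fun i _ => by ring

/-- Parameters at a zero-dimensional centre. -/
theorem isPar_of_gen (hk : ∀ c : k, algebraMap k K c ∈ V)
    (hres : ∀ f ∈ V, ∃ c : k, V.valuation (f - algebraMap k K c) < 1) (A : Subalgebra k K)
    (hfg : A.FG) (hA : ∀ f ∈ A, f ∈ V) (hfrac : IsFrac A) {n : ℕ}
    (htr : Algebra.trdeg k K = n) {z : Fin n → K} (hz : ∀ i, z i ∈ locV V A)
    (hne : ∀ i, z i ≠ 0) (hpos : ∀ i, V.valuation (z i) < 1)
    (hgen : ∀ f ∈ locV V A, V.valuation f < 1 →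
      ∃ a : Fin n → K, (∀ i, a i ∈ locV V A) ∧ f = ∑ i, a i * z i) : IsPar V (locV V A) z :=
  ⟨hz, hne, hpos, hgen, le_antisymm (dim_le_of_gen V A hA hfg hz hpos hgen)
    (dim_ge hk hres A hfg hA hfrac htr)⟩

/-- The transcendence degree is the number of parameters. -/
theorem IsPar.trdeg (hk : ∀ c : k, algebraMap k K c ∈ V)
    (hres : ∀ f ∈ V, ∃ c : k, V.valuation (f - algebraMap k K c) < 1) (A : Subalgebra k K)
    (hfg : A.FG) (hA : ∀ f ∈ A, f ∈ V) (hfrac : IsFrac A) {n m : ℕ}
    (htr : Algebra.trdeg k K = m) {z : Fin n → K} (hz : IsPar V (locV V A) z) : m ≤ n := by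
  have h1 := dim_ge hk hres A hfg hA hfrac htr
  rw [hz.dim] at h1
  exact_mod_cast h1

end Pool.Agent.ALL68
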